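import Mathlib

/-!
# Subgroups of `ℝ⁴ × ℝ` which tile by the prism over the 24-cell

For `x : Fin 4 → ℝ` let `N x` be the sum of the two largest `|x i|`. We write `NLe x c` for
`N x ≤ c` and `NLt x c` for `N x < c`.
-/

namespace Pool.Agent.Lib.P78373f

open Filter Topology

/-- `N x ≤ c`. -/
def NLe (x : Fin 4 → ℝ) (c : ℝ) : Prop := ∀ i j, i ≠ j → |x i| + |x j| ≤ c

/-- `N x < c`. -/
def NLt (x : Fin 4 → ℝ) (c : ℝ) : Prop := ∀ i j, i ≠ j → |x i| + |x j| < c

theorem NLt.le {x : Fin 4 → ℝ} {c : ℝ} (h : NLt x c) : NLe x c := fun i j hij => (h i j hij).le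

theorem NLe.add {x y : Fin 4 → ℝ} {c d : ℝ} (hx : NLe x c) (hy : NLe y d) : NLe (x + y) (c + d) := by
  intro i j hij
  have h1 := hx i j hij
  have h2 := hy i j hij
  have h3 := abs_add_le (x i) (y i)
  have h4 := abs_add_le (x j) (y j)
  simp only [Pi.add_apply]
  linarith

theorem NLt.add_le {x y : Fin 4 → ℝ} {c d : ℝ} (hx : NLt x c) (hy : NLe y d) :
    NLt (x + y) (c + d) := by
  intro i j hij
  have h1 := hx i j hij
  have h2 := hy i j hij
  have h3 := abs_add_le (x i) (y i)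
  have h4 := abs_add_le (x j) (y j)
  simp only [Pi.add_apply]
  linarith

theorem NLe.neg {x : Fin 4 → ℝ} {c : ℝ} (hx : NLe x c) : NLe (-x) c := by
  intro i j hij
  simpa using hx i j hij

theorem NLt.neg {x : Fin 4 → ℝ} {c : ℝ} (hx : NLt x c) : NLt (-x) c := by
  intro i j hij
  simpa using hx i j hij

theorem NLe.abs_le {x : Fin 4 → ℝ} {c : ℝ} (hx : NLe x c) (i : Fin 4) : |x i| ≤ c := by
  obtain ⟨j, hj⟩ := exists_ne i
  have := hx i j hj.symm
  linarith [abs_nonneg (x j)]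

/-- A `2`-separated and `1`-dense subgroup of `ℝ⁴ × ℝ` for the norm `max (N x) |z|`. -/
structure Tile (L : AddSubgroup ((Fin 4 → ℝ) × ℝ)) : Prop where
  sep : ∀ p ∈ L, NLt p.1 2 → |p.2| < 2 → p = 0
  cov : ∀ a : (Fin 4 → ℝ) × ℝ, ∃ p ∈ L, NLe (a.1 - p.1) 1 ∧ |a.2 - p.2| ≤ 1

/-- Bounded sequences in `ℝ⁴ × ℝ` converge along an ultrafilter. -/
theorem exists_tendsto_of_bounded {ι : Type*} (U : Ultrafilter ι) (p : ι → (Fin 4 → ℝ) × ℝ) (C : ℝ)
    (h : ∀ᶠ n in (U : Filter ι), (∀ i, |(p n).1 i| ≤ C) ∧ |(p n).2| ≤ C) :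
    ∃ a, Tendsto p U (𝓝 a) := by
  have hK : IsCompact (Set.univ.pi (fun _ : Fin 4 => Set.Icc (-C) C) ×ˢ Set.Icc (-C) C) :=
    (isCompact_univ_pi fun _ => isCompact_Icc).prod isCompact_Icc
  have h1 : (U.map p : Filter _) ≤ 𝓟 (Set.univ.pi (fun _ : Fin 4 => Set.Icc (-C) C) ×ˢ
      Set.Icc (-C) C) := by
    rw [Ultrafilter.coe_map, le_principal_iff, mem_map]
    filter_upwards [h] with n hn
    refine Set.mem_prod.2 ⟨fun i _ => abs_le.1 (hn.1 i), abs_le.1 hn.2⟩
  obtain ⟨a, -, ha⟩ := hK.ultrafilter_le_nhds (U.map p) h1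
  exact ⟨a, ha⟩

namespace Tile

variable {L : AddSubgroup ((Fin 4 → ℝ) × ℝ)} (hL : Tile L)

include hL in
/-- For a bounded family of points, one element of `L` covers all of them along an
ultrafilter. -/
theorem exists_cover {ι : Type*} (U : Ultrafilter ι) (a : ι → (Fin 4 → ℝ) × ℝ) (C : ℝ)
    (h : ∀ᶠ n in (U : Filter ι), (∀ i, |(a n).1 i| ≤ C) ∧ |(a n).2| ≤ C) :
    ∃ p ∈ L, ∀ᶠ n in (U : Filter ι), NLe ((a n).1 - p.1) 1 ∧ |(a n).2 - p.2| ≤ 1 := by
  choose p hp hp1 hp2 using fun n => hL.cov (a n)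
  have hb : ∀ᶠ n in (U : Filter ι), (∀ i, |(p n).1 i| ≤ C + 1) ∧ |(p n).2| ≤ C + 1 := by
    filter_upwards [h] with n hn
    constructor
    · intro i
      have h1 := (hp1 n).abs_le i
      have h2 := hn.1 i
      rw [Pi.sub_apply] at h1
      rw [_root_.abs_le] at *
      constructor <;> linarith
    · have h1 := hp2 n
      have h2 := hn.2
      rw [_root_.abs_le] at *
      constructor <;> linarith
  obtain ⟨b, hpb⟩ := exists_tendsto_of_bounded U p (C + 1) hb
  have h1 : ∀ᶠ n in (U : Filter ι), (∀ i, |(p n).1 i - b.1 i| < 1 / 2) ∧ |(p n).2 - b.2| < 1 / 2 := by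
    have h2 : Tendsto (fun n => (p n).1) U (𝓝 b.1) := (continuous_fst.tendsto b).comp hpb
    have h3 : Tendsto (fun n => (p n).2) U (𝓝 b.2) := (continuous_snd.tendsto b).comp hpb
    rw [tendsto_pi_nhds] at h2
    have h4 : ∀ᶠ n in (U : Filter ι), ∀ i, |(p n).1 i - b.1 i| < 1 / 2 := by
      rw [eventually_all]
      intro i
      have := (h2 i).eventually (Metric.ball_mem_nhds (b.1 i) (show (0 : ℝ) < 1 / 2 by norm_num))
      filter_upwards [this] with n hn
      rwa [Real.dist_eq] at hn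
    have h5 : ∀ᶠ n in (U : Filter ι), |(p n).2 - b.2| < 1 / 2 := by
      have := h3.eventually (Metric.ball_mem_nhds b.2 (show (0 : ℝ) < 1 / 2 by norm_num))
      filter_upwards [this] with n hn
      rwa [Real.dist_eq] at hn
    exact h4.and h5
  obtain ⟨m, hm⟩ := h1.exists
  refine ⟨p m, hp m, ?_⟩
  filter_upwards [h1] with n hn
  have h2 : p n - p m = 0 := by
    refine hL.sep _ (L.sub_mem (hp n) (hp m)) ?_ ?_
    · intro i j _
      have e1 := hn.1 i
      have e2 := hn.1 j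
      have e3 := hm.1 i
      have e4 := hm.1 j
      have e5 : |(p n - p m).1 i| < 1 := by
        show |(p n).1 i - (p m).1 i| < 1
        rw [abs_lt] at *
        constructor <;> linarith
      have e6 : |(p n - p m).1 j| < 1 := by
        show |(p n).1 j - (p m).1 j| < 1
        rw [abs_lt] at *
        constructor <;> linarith
      linarith
    · show |(p n).2 - (p m).2| < 2
      have e1 := hn.2
      have e2 := hm.2
      rw [abs_lt] at *
      constructor <;> linarith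
  have h3 : p n = p m := sub_eq_zero.1 h2
  rw [← h3]
  exact ⟨hp1 n, hp2 n⟩

end Tile

/-! ### The germ at zero -/

/-- An ultrafilter of positive reals converging to zero. -/
noncomputable def germ : Ultrafilter ℝ := Ultrafilter.of (𝓝[>] (0 : ℝ))

theorem germ_le : (germ : Filter ℝ) ≤ 𝓝[>] (0 : ℝ) := Ultrafilter.of_le _

theorem germ_pos : ∀ᶠ s in (germ : Filter ℝ), 0 < s :=
  germ_le (eventually_mem_nhdsWithin)

theorem germ_lt {c : ℝ} (hc : 0 < c) : ∀ᶠ s in (germ : Filter ℝ), s < c := by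
  refine germ_le ?_
  exact mem_nhdsWithin_of_mem_nhds (Iio_mem_nhds hc)

theorem germ_tendsto : Tendsto (fun s : ℝ => s) germ (𝓝 0) :=
  (tendsto_id.mono_left (germ_le.trans nhdsWithin_le_nhds))

/-- Passing to the limit in a linear inequality. -/
theorem le_of_germ {c d K : ℝ} (h : ∀ᶠ s in (germ : Filter ℝ), c ≤ d + K * s) : c ≤ d := by
  have h1 : Tendsto (fun s : ℝ => d + K * s) germ (𝓝 (d + K * 0)) :=
    tendsto_const_nhds.add (germ_tendsto.const_mul K)
  have := ge_of_tendsto h1 h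
  simpa using this

end Pool.Agent.Lib.P78373f
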