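import Pool.Agent.Lib.P78373f.Basic

/-!
# Neighbours across a facet
-/

namespace Pool.Agent.Lib.P78373f

open Filter Topology

namespace Tile

variable {L : AddSubgroup ((Fin 4 → ℝ) × ℝ)} (hL : Tile L)

include hL in
/-- The element of `L` whose cell contains the points `(a + s d, t)` for small `s > 0`; here the
points `a + s d` are just outside the facet `x i + x j = 1` of the 24-cell. -/
theorem exists_facet (i j : Fin 4) (hij : i ≠ j) (a d : Fin 4 → ℝ)
    (h1 : ∀ s : ℝ, 0 < s → s < 1 / 100 →
      0 < a i + s * d i ∧ 0 < a j + s * d j ∧ 1 < (a i + s * d i) + (a j + s * d j) ∧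
      (a i + s * d i) - (a j + s * d j) < 1 ∧ (a j + s * d j) - (a i + s * d i) < 1)
    (h2 : a i + a j = 1)
    (h3 : ∀ s : ℝ, 0 < s → s < 1 / 100 → ∀ k l, k ≠ l → ¬(k = i ∧ l = j) → ¬(k = j ∧ l = i) →
      |a k + s * d k| + |a l + s * d l| < 1) :
    ∃ p ∈ L, |p.2| ≤ 1 ∧ 0 ≤ p.1 i ∧ 0 ≤ p.1 j ∧ p.1 i + p.1 j = 2 ∧ NLe (a - p.1) 1 ∧
      ∀ᶠ s in (germ : Filter ℝ), NLe (fun k => a k + s * d k - p.1 k) 1 := by
  obtain ⟨p, hp, hcov⟩ := hL.exists_cover germ
    (fun s => ((fun k => a k + s * d k), (0 : ℝ))) ((∑ k, |a k|) + ∑ k, |d k|) (by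
      filter_upwards [germ_pos, germ_lt (show (0 : ℝ) < 1 by norm_num)] with s hs hs1
      have hk : ∀ (f : Fin 4 → ℝ) (k : Fin 4), |f k| ≤ ∑ k, |f k| := fun f k =>
        Finset.single_le_sum (f := fun k => |f k|) (fun _ _ => abs_nonneg _) (Finset.mem_univ k)
      constructor
      · intro k
        have e1 := abs_add_le (a k) (s * d k)
        have e2 : |s * d k| ≤ |d k| := by
          rw [abs_mul, abs_of_pos hs]
          have := abs_nonneg (d k)
          nlinarith
        have e3 := hk a k
        have e4 := hk d k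
        show |a k + s * d k| ≤ _
        linarith
      · show |(0 : ℝ)| ≤ _
        rw [abs_zero]
        exact add_nonneg (Finset.sum_nonneg fun _ _ => abs_nonneg _)
          (Finset.sum_nonneg fun _ _ => abs_nonneg _))
  have hev : ∀ᶠ s in (germ : Filter ℝ), 0 < s ∧ s < 1 / 100 ∧
      NLe (fun k => a k + s * d k - p.1 k) 1 ∧ |p.2| ≤ 1 := by
    filter_upwards [germ_pos, germ_lt (show (0 : ℝ) < 1 / 100 by norm_num), hcov] with s hs hs1 hs2
    refine ⟨hs, hs1, hs2.1, ?_⟩
    have := hs2.2
    simpa using this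
  obtain ⟨s, hs, hs1, hN, hp2⟩ := hev.exists
  obtain ⟨e1, e2, e3, e4, e5⟩ := h1 s hs hs1
  have hNij := hN i j hij
  simp only at hNij
  -- `p` is not zero
  have hne : p ≠ 0 := by
    rintro rfl
    simp only [Prod.fst_zero, Pi.zero_apply, sub_zero, abs_of_pos e1, abs_of_pos e2] at hNij
    linarith
  -- only the pair `i, j` can be large
  have hlarge : 2 ≤ |p.1 i| + |p.1 j| := by
    by_contra hcon
    push Not at hcon
    apply hne
    refine hL.sep p hp (fun k l hkl => ?_) (by linarith)
    by_cases c1 : k = i ∧ l = j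
    · rw [c1.1, c1.2]; exact hcon
    by_cases c2 : k = j ∧ l = i
    · rw [c2.1, c2.2]; linarith
    have e6 := h3 s hs hs1 k l hkl c1 c2
    have e7 := hN k l hkl
    simp only at e7
    have e8 : |p.1 k| ≤ |a k + s * d k| + |a k + s * d k - p.1 k| := by
      have := abs_sub (a k + s * d k) (a k + s * d k - p.1 k)
      rwa [sub_sub_cancel] at this
    have e9 : |p.1 l| ≤ |a l + s * d l| + |a l + s * d l - p.1 l| := by
      have := abs_sub (a l + s * d l) (a l + s * d l - p.1 l)
      rwa [sub_sub_cancel] at this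
    linarith
  -- signs
  have hpi : 0 ≤ p.1 i := by
    by_contra hcon
    push Not at hcon
    have e6 : |a i + s * d i - p.1 i| = a i + s * d i - p.1 i := abs_of_pos (by linarith)
    have e7 : |p.1 i| = -p.1 i := abs_of_neg hcon
    have e8 : |p.1 j| ≤ |a j + s * d j| + |a j + s * d j - p.1 j| := by
      have := abs_sub (a j + s * d j) (a j + s * d j - p.1 j)
      rwa [sub_sub_cancel] at this
    rw [abs_of_pos e2] at e8
    linarith
  have hpj : 0 ≤ p.1 j := by
    by_contra hcon
    push Not at hcon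
    have e6 : |a j + s * d j - p.1 j| = a j + s * d j - p.1 j := abs_of_pos (by linarith)
    have e7 : |p.1 j| = -p.1 j := abs_of_neg hcon
    have e8 : |p.1 i| ≤ |a i + s * d i| + |a i + s * d i - p.1 i| := by
      have := abs_sub (a i + s * d i) (a i + s * d i - p.1 i)
      rwa [sub_sub_cancel] at this
    rw [abs_of_pos e1] at e8
    linarith
  rw [abs_of_nonneg hpi, abs_of_nonneg hpj] at hlarge
  have hle : p.1 i + p.1 j ≤ 2 := by
    refine le_of_germ (K := d i + d j) ?_
    filter_upwards [hev] with r hr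
    obtain ⟨hr0, hr1, hr2, -⟩ := hr
    have e6 := hr2 i j hij
    simp only at e6
    have e7 := neg_abs_le (a i + r * d i - p.1 i)
    have e8 := neg_abs_le (a j + r * d j - p.1 j)
    nlinarith
  refine ⟨p, hp, hp2, hpi, hpj, le_antisymm hle hlarge, ?_, ?_⟩
  · intro k l hkl
    refine le_of_germ (K := |d k| + |d l|) ?_
    filter_upwards [hev] with r hr
    obtain ⟨hr0, hr1, hr2, -⟩ := hr
    have e6 := hr2 k l hkl
    simp only at e6
    have e7 : |a k - p.1 k| ≤ |a k + r * d k - p.1 k| + r * |d k| := by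
      have := abs_sub (a k + r * d k - p.1 k) (r * d k)
      rw [abs_mul, abs_of_pos hr0] at this
      refine le_trans (le_of_eq ?_) this
      congr 1
      ring
    have e8 : |a l - p.1 l| ≤ |a l + r * d l - p.1 l| + r * |d l| := by
      have := abs_sub (a l + r * d l - p.1 l) (r * d l)
      rw [abs_mul, abs_of_pos hr0] at this
      refine le_trans (le_of_eq ?_) this
      congr 1
      ring
    simp only [Pi.sub_apply]
    nlinarith
  · filter_upwards [hev] with r hr
    exact hr.2.2.1

end Tile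

end Pool.Agent.Lib.P78373f
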