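import Pool.Agent.Lib.P78373f.Root

/-!
# A tiling subgroup contains a facet vector with a small height
-/

namespace Pool.Agent.Lib.P78373f

open Filter Topology

/-! ### Signed permutations -/

/-- A signed permutation of the coordinates. -/
def act (π : Equiv.Perm (Fin 4)) (e : Fin 4 → ℝ) (x : Fin 4 → ℝ) : Fin 4 → ℝ :=
  fun i => e i * x (π i)

/-- The signed permutation as a homomorphism of `ℝ⁴ × ℝ`. -/
def actHom (π : Equiv.Perm (Fin 4)) (e : Fin 4 → ℝ) :
    (Fin 4 → ℝ) × ℝ →+ (Fin 4 → ℝ) × ℝ where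
  toFun p := (act π e p.1, p.2)
  map_zero' := by
    ext i <;> simp [act]
  map_add' p q := by
    ext i
    · simp [act, mul_add]
    · simp

section act

variable (π : Equiv.Perm (Fin 4)) (e : Fin 4 → ℝ) (he : ∀ i, e i = 1 ∨ e i = -1)

include he

theorem abs_act (x : Fin 4 → ℝ) (i : Fin 4) : |act π e x i| = |x (π i)| := by
  unfold act
  rcases he i with h | h <;> rw [h] <;> simp

theorem nLe_act {x : Fin 4 → ℝ} {c : ℝ} : NLe (act π e x) c ↔ NLe x c := by
  unfold NLe
  simp only [abs_act π e he]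
  constructor
  · intro h i j hij
    have := h (π.symm i) (π.symm j) (fun h => hij (π.symm.injective h))
    simpa using this
  · intro h i j hij
    exact h _ _ (fun h => hij (π.injective h))

theorem nLt_act {x : Fin 4 → ℝ} {c : ℝ} : NLt (act π e x) c ↔ NLt x c := by
  unfold NLt
  simp only [abs_act π e he]
  constructor
  · intro h i j hij
    have := h (π.symm i) (π.symm j) (fun h => hij (π.symm.injective h))
    simpa using this
  · intro h i j hij
    exact h _ _ (fun h => hij (π.injective h))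

theorem act_surj (y : Fin 4 → ℝ) : ∃ x, act π e x = y := by
  refine ⟨fun k => e (π.symm k) * y (π.symm k), ?_⟩
  ext i
  unfold act
  simp only [Equiv.symm_apply_apply]
  rcases he i with h | h <;> rw [h] <;> ring

theorem act_eq_zero {x : Fin 4 → ℝ} (h : act π e x = 0) : x = 0 := by
  ext i
  have h1 := abs_act π e he x (π.symm i)
  rw [h] at h1
  simp only [Pi.zero_apply, abs_zero, Equiv.apply_symm_apply] at h1
  exact abs_eq_zero.1 h1.symm

theorem Tile.comap_act {L : AddSubgroup ((Fin 4 → ℝ) × ℝ)} (hL : Tile L) :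
    Tile (L.comap (actHom π e)) where
  sep p hp hN h2 := by
    have h1 := hL.sep (act π e p.1, p.2) hp ((nLt_act π e he).2 hN) h2
    ext i
    · exact congrFun (act_eq_zero π e he (congrArg Prod.fst h1)) i
    · have h3 := congrArg Prod.snd h1
      exact h3
  cov a := by
    obtain ⟨q, hq, hq1, hq2⟩ := hL.cov (act π e a.1, a.2)
    obtain ⟨x, hx⟩ := act_surj π e he q.1
    refine ⟨(x, q.2), ?_, ?_, hq2⟩
    · show (act π e x, q.2) ∈ L
      rw [hx]
      exact hq
    · rw [← nLe_act π e he]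
      convert hq1 using 1
      rw [← hx]
      ext i
      simp [act, mul_sub]

end act

/-- `Good x`: `N x = 2` and exactly one pair of opposite roots is responsible for that. -/
def Good (x : Fin 4 → ℝ) : Prop :=
  ∃ i j, i ≠ j ∧ x i ≠ 0 ∧ x j ≠ 0 ∧ |x i| + |x j| = 2 ∧
    ∀ k l, k ≠ l → ¬(k = i ∧ l = j) → ¬(k = j ∧ l = i) → |x k| + |x l| < 2

theorem Good.neg {x : Fin 4 → ℝ} (h : Good x) : Good (-x) := by
  obtain ⟨i, j, h1, h2, h3, h4, h5⟩ := h
  exact ⟨i, j, h1, by simpa using h2, by simpa using h3, by simpa using h4, by simpa using h5⟩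

theorem Good.act (π : Equiv.Perm (Fin 4)) (e : Fin 4 → ℝ) (he : ∀ i, e i = 1 ∨ e i = -1)
    {x : Fin 4 → ℝ} (h : Good x) : Good (act π e x) := by
  obtain ⟨i, j, h1, h2, h3, h4, h5⟩ := h
  have hne : ∀ k, x (π k) ≠ 0 → P78373f.act π e x k ≠ 0 := by
    intro k hk h0
    have := abs_act π e he x k
    rw [h0, abs_zero] at this
    exact hk (abs_eq_zero.1 this.symm)
  refine ⟨π.symm i, π.symm j, fun h => h1 (π.symm.injective h), hne _ (by simpa using h2),
    hne _ (by simpa using h3), ?_, ?_⟩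
  · rw [abs_act π e he, abs_act π e he]
    simpa using h4
  · intro k l hkl c1 c2
    rw [abs_act π e he, abs_act π e he]
    refine h5 _ _ (fun h => hkl (π.injective h)) ?_ ?_
    · rintro ⟨a1, a2⟩
      exact c1 ⟨by rw [← a1]; simp, by rw [← a2]; simp⟩
    · rintro ⟨a1, a2⟩
      exact c2 ⟨by rw [← a1]; simp, by rw [← a2]; simp⟩

/-! ### Column tilings -/

namespace Tile

variable {L : AddSubgroup ((Fin 4 → ℝ) × ℝ)} (hL : Tile L)
  (h02 : ((0 : Fin 4 → ℝ), (2 : ℝ)) ∈ L)

include hL h02

theorem root_act (π : Equiv.Perm (Fin 4)) (e : Fin 4 → ℝ) (he : ∀ i, e i = 1 ∨ e i = -1) :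
    ∃ σ : ℝ, (act π e ![1, 1, 0, 0], σ) ∈ L := by
  have h1 := hL.comap_act π e he
  have h2 : ((0 : Fin 4 → ℝ), (2 : ℝ)) ∈ L.comap (actHom π e) := by
    show (act π e 0, (2 : ℝ)) ∈ L
    have : act π e 0 = 0 := by
      ext i
      simp [act]
    rw [this]
    exact h02
  exact root01 h1 h2

theorem exists_heights : ∃ a : Fin 4 → ℝ,
    (∀ i j, (Pi.single i 1 - Pi.single j 1, a i - a j) ∈ L) ∧
    (∀ i j, (Pi.single i 1 + Pi.single j 1, a i + a j) ∈ L) := by
  obtain ⟨α, hα⟩ := root01 hL h02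
  obtain ⟨β, hβ⟩ := root_act hL h02 (Equiv.refl _) ![1, -1, 1, 1]
    (by intro i; fin_cases i <;> simp)
  obtain ⟨γ, hγ⟩ := root_act hL h02 (Equiv.swap 1 2) ![1, 1, -1, 1]
    (by intro i; fin_cases i <;> simp)
  obtain ⟨δ, hδ⟩ := root_act hL h02 (Equiv.swap 1 3) ![1, 1, 1, -1]
    (by intro i; fin_cases i <;> simp)
  have eβ : act (Equiv.refl (Fin 4)) ![1, -1, 1, 1] ![1, 1, 0, 0] = ![1, -1, 0, 0] := by
    ext i
    fin_cases i <;> simp [act]
  have eγ : act (Equiv.swap 1 2) ![1, 1, -1, 1] ![1, 1, 0, 0] = ![1, 0, -1, 0] := by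
    ext i
    fin_cases i <;> simp [act, Equiv.swap_apply_def]
  have eδ : act (Equiv.swap 1 3) ![1, 1, 1, -1] ![1, 1, 0, 0] = ![1, 0, 0, -1] := by
    ext i
    fin_cases i <;> simp [act, Equiv.swap_apply_def]
  rw [eβ] at hβ
  rw [eγ] at hγ
  rw [eδ] at hδ
  let a : Fin 4 → ℝ := ![(α + β) / 2, (α - β) / 2, (α + β) / 2 - γ, (α + β) / 2 - δ]
  have h0 : ∀ i, (Pi.single 0 1 - Pi.single i 1, a 0 - a i) ∈ L := by
    intro i
    fin_cases i
    · convert L.zero_mem using 1
      ext j <;> simp
    · convert hβ using 1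
      ext j
      · fin_cases j <;> simp
      · simp [a]; ring
    · convert hγ using 1
      ext j
      · fin_cases j <;> simp
      · simp [a]
    · convert hδ using 1
      ext j
      · fin_cases j <;> simp
      · simp [a]
  have h00 : (Pi.single 0 1 + Pi.single 0 1, a 0 + a 0) ∈ L := by
    convert L.add_mem hα hβ using 1
    ext j
    · fin_cases j <;> simp
    · simp [a]
  refine ⟨a, fun i j => ?_, fun i j => ?_⟩
  · convert L.sub_mem (h0 j) (h0 i) using 1
    ext k
    · simp
    · simp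
  · convert L.sub_mem (L.sub_mem h00 (h0 i)) (h0 j) using 1
    ext k
    · simp only [Prod.mk_sub_mk, Pi.add_apply, Pi.sub_apply]
      ring
    · simp only [Prod.mk_sub_mk]
      ring

end Tile

theorem good_single (i j : Fin 4) (hij : i ≠ j) (u v : ℝ) (hu : |u| = 1) (hv : |v| = 1)
    (x : Fin 4 → ℝ) (hx : ∀ k, x k = if k = i then u else if k = j then v else 0) : Good x := by
  have hi : x i = u := by rw [hx, if_pos rfl]
  have hj : x j = v := by rw [hx, if_neg hij.symm, if_pos rfl]
  have hu0 : u ≠ 0 := by rintro rfl; simp at hu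
  have hv0 : v ≠ 0 := by rintro rfl; simp at hv
  have hle : ∀ k, |x k| ≤ 1 := by
    intro k
    rw [hx]
    split_ifs
    · exact hu.le
    · exact hv.le
    · simp
  have h0 : ∀ k, k ≠ i → k ≠ j → |x k| = 0 := by
    intro k h1 h2
    rw [hx, if_neg h1, if_neg h2, abs_zero]
  refine ⟨i, j, hij, by rwa [hi], by rwa [hj], by rw [hi, hj, hu, hv]; norm_num, ?_⟩
  intro k l hkl c1 c2
  have e1 := hle k
  have e2 := hle l
  by_cases hk : k ≠ i ∧ k ≠ j
  · have := h0 k hk.1 hk.2
    linarith
  by_cases hl : l ≠ i ∧ l ≠ j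
  · have := h0 l hl.1 hl.2
    linarith
  exfalso
  push Not at hk hl
  by_cases h1 : k = i
  · subst h1
    by_cases h2 : l = k
    · exact hkl h2.symm
    · exact c1 ⟨rfl, hl h2⟩
  · have h2 := hk h1
    subst h2
    by_cases h3 : l = i
    · exact c2 ⟨rfl, h3⟩
    · exact hkl (hl h3).symm

namespace Tile

variable {L : AddSubgroup ((Fin 4 → ℝ) × ℝ)} (hL : Tile L)
  (h02 : ((0 : Fin 4 → ℝ), (2 : ℝ)) ∈ L)

include hL h02

theorem exists_good_of_column : ∃ p ∈ L, Good p.1 ∧ |p.2| ≤ 1 / 3 := by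
  obtain ⟨a, hsub, hadd⟩ := exists_heights hL h02
  let m : Fin 4 → ℤ := fun i => round (a i / 2)
  let b : Fin 4 → ℝ := fun i => a i - 2 * m i
  have hb : ∀ i, |b i| ≤ 1 := by
    intro i
    have h1 := abs_sub_round (a i / 2)
    have h2 : b i = 2 * (a i / 2 - round (a i / 2)) := by
      show a i - 2 * (round (a i / 2) : ℝ) = _
      ring
    rw [h2, abs_mul, abs_two]
    linarith
  let f : Fin 4 → Fin 3 := fun i => if |b i| < 1 / 3 then 0 else if |b i| < 2 / 3 then 1 else 2
  obtain ⟨i, j, hij, hf⟩ := Fintype.exists_ne_map_eq_of_card_lt f (by simp)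
  have hclose : |(|b i| - |b j|)| ≤ 1 / 3 := by
    have h1 := hb i
    have h2 := hb j
    have h3 := abs_nonneg (b i)
    have h4 := abs_nonneg (b j)
    simp only [f] at hf
    rw [abs_le]
    split_ifs at hf with c1 c2 c3 c4 c5 c6
    all_goals first
      | exact absurd hf (by decide)
      | (simp only [not_lt] at *; constructor <;> linarith)
  have hdiff : ∀ (x : Fin 4 → ℝ) (z : ℝ) (n : ℤ), (x, z) ∈ L → (x, z - 2 * (n : ℝ)) ∈ L := by
    intro x z n h
    have := L.sub_mem h (vert_mem h02 n)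
    simpa using this
  rcases abs_cases (b i) with ⟨e1, _⟩ | ⟨e1, _⟩ <;> rcases abs_cases (b j) with ⟨e2, _⟩ | ⟨e2, _⟩ <;>
    rw [e1, e2] at hclose
  · refine ⟨_, hdiff _ _ (m i - m j) (hsub i j), good_single i j hij 1 (-1) (by simp) (by simp) _ ?_, ?_⟩
    · intro k
      by_cases h1 : k = i
      · subst h1; simp [hij]
      · by_cases h2 : k = j
        · subst h2; simp [h1]
        · simp [h1, h2]
    · convert hclose using 2
      simp only [b]
      push_cast
      ring
  · refine ⟨_, hdiff _ _ (m i + m j) (hadd i j), good_single i j hij 1 1 (by simp) (by simp) _ ?_, ?_⟩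
    · intro k
      by_cases h1 : k = i
      · subst h1; simp [hij]
      · by_cases h2 : k = j
        · subst h2; simp [h1]
        · simp [h1, h2]
    · convert hclose using 2
      simp only [b]
      push_cast
      ring
  · refine ⟨_, L.neg_mem (hdiff _ _ (m i + m j) (hadd i j)),
      good_single i j hij (-1) (-1) (by simp) (by simp) _ ?_, ?_⟩
    · intro k
      by_cases h1 : k = i
      · subst h1; simp [hij]
      · by_cases h2 : k = j
        · subst h2; simp [h1]
        · simp [h1, h2]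
    · convert hclose using 2
      simp only [b, Prod.neg_mk]
      push_cast
      ring
  · refine ⟨_, hdiff _ _ (m j - m i) (hsub j i), good_single i j hij (-1) 1 (by simp) (by simp) _ ?_, ?_⟩
    · intro k
      by_cases h1 : k = i
      · subst h1; simp [hij]
      · by_cases h2 : k = j
        · subst h2; simp [h1]
        · simp [h1, h2]
    · convert hclose using 2
      simp only [b]
      push_cast
      ring

end Tile

end Pool.Agent.Lib.P78373f
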