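import Pool.Agent.Lib.P78373f.Vert

/-!
# Limits of lattices, and the lower bound
-/

namespace Pool.Agent.Lib.P78373f

open Filter Topology

/-- `‖v‖ ≤ r` for the norm with parameter `ε`. -/
structure BLe (ε : ℝ) (v : (Fin 4 → ℝ) × ℝ) (r : ℝ) : Prop where
  N : NLe v.1 r
  z : |v.2| ≤ r
  s : ∀ i j, i ≠ j → |v.1 i| + |v.1 j| + 2 * ε * |v.2| ≤ (1 + ε) * r

/-- `‖v‖ < r` for the norm with parameter `ε`. -/
structure BLt (ε : ℝ) (v : (Fin 4 → ℝ) × ℝ) (r : ℝ) : Prop where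
  N : NLt v.1 r
  z : |v.2| < r
  s : ∀ i j, i ≠ j → |v.1 i| + |v.1 j| + 2 * ε * |v.2| < (1 + ε) * r

/-- A `2`-separated and `r`-dense subgroup for the norm with parameter `ε`. -/
structure Lat (ε r : ℝ) (Λ : AddSubgroup ((Fin 4 → ℝ) × ℝ)) : Prop where
  sep : ∀ v ∈ Λ, BLt ε v 2 → v = 0
  cov : ∀ a : (Fin 4 → ℝ) × ℝ, ∃ p ∈ Λ, BLe ε (a - p) r

section

variable {ι : Type*} (U : Ultrafilter ι) (Λ : ι → AddSubgroup ((Fin 4 → ℝ) × ℝ))

/-- The limit of the subgroups `Λ n` along the ultrafilter `U`. -/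
def limGroup : AddSubgroup ((Fin 4 → ℝ) × ℝ) where
  carrier := {a | ∃ p : ι → (Fin 4 → ℝ) × ℝ, (∀ n, p n ∈ Λ n) ∧ Tendsto p U (𝓝 a)}
  zero_mem' := ⟨fun _ => 0, fun n => (Λ n).zero_mem, tendsto_const_nhds⟩
  add_mem' := by
    rintro a b ⟨p, hp, hpa⟩ ⟨q, hq, hqb⟩
    exact ⟨fun n => p n + q n, fun n => (Λ n).add_mem (hp n) (hq n), hpa.add hqb⟩
  neg_mem' := by
    rintro a ⟨p, hp, hpa⟩
    exact ⟨fun n => -p n, fun n => (Λ n).neg_mem (hp n), hpa.neg⟩

variable {U Λ}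

theorem tendsto_fst {p : ι → (Fin 4 → ℝ) × ℝ} {a : (Fin 4 → ℝ) × ℝ} (h : Tendsto p U (𝓝 a))
    (i : Fin 4) : Tendsto (fun n => (p n).1 i) U (𝓝 (a.1 i)) := by
  have h2 : Tendsto (fun n => (p n).1) U (𝓝 a.1) := (continuous_fst.tendsto a).comp h
  exact (tendsto_pi_nhds.1 h2) i

theorem tendsto_snd' {p : ι → (Fin 4 → ℝ) × ℝ} {a : (Fin 4 → ℝ) × ℝ} (h : Tendsto p U (𝓝 a)) :
    Tendsto (fun n => (p n).2) U (𝓝 a.2) :=
  (continuous_snd.tendsto a).comp h

variable {ε r : ι → ℝ} (hε : Tendsto ε U (𝓝 0)) (hΛ : ∀ n, Lat (ε n) (r n) (Λ n))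

include hε hΛ in
theorem eventually_eq_zero {v : ι → (Fin 4 → ℝ) × ℝ} (hv : ∀ n, v n ∈ Λ n)
    {a : (Fin 4 → ℝ) × ℝ} (ha : Tendsto v U (𝓝 a)) (h1 : NLt a.1 2) (h2 : |a.2| < 2) :
    ∀ᶠ n in (U : Filter ι), v n = 0 := by
  have e1 : ∀ᶠ n in (U : Filter ι), ∀ i j, i ≠ j → |(v n).1 i| + |(v n).1 j| < 2 := by
    rw [eventually_all]
    intro i
    rw [eventually_all]
    intro j
    by_cases hij : i = j
    · exact Eventually.of_forall fun n h => absurd hij h
    · have := ((tendsto_fst ha i).abs.add (tendsto_fst ha j).abs).eventually_lt_const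
        (h1 i j hij)
      filter_upwards [this] with n hn _
      exact hn
  have e2 : ∀ᶠ n in (U : Filter ι), |(v n).2| < 2 :=
    (tendsto_snd' ha).abs.eventually_lt_const h2
  have e3 : ∀ᶠ n in (U : Filter ι), ∀ i j, i ≠ j →
      |(v n).1 i| + |(v n).1 j| + 2 * ε n * |(v n).2| < (1 + ε n) * 2 := by
    rw [eventually_all]
    intro i
    rw [eventually_all]
    intro j
    by_cases hij : i = j
    · exact Eventually.of_forall fun n h => absurd hij h
    · have t1 : Tendsto (fun n => |(v n).1 i| + |(v n).1 j| + 2 * ε n * |(v n).2|) U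
          (𝓝 (|a.1 i| + |a.1 j| + 2 * 0 * |a.2|)) :=
        ((tendsto_fst ha i).abs.add (tendsto_fst ha j).abs).add
          ((hε.const_mul 2).mul (tendsto_snd' ha).abs)
      have t2 : Tendsto (fun n => (1 + ε n) * 2) U (𝓝 ((1 + 0) * 2)) :=
        (hε.const_add 1).mul_const 2
      have := t1.eventually_lt t2 (by
        have := h1 i j hij
        linarith)
      filter_upwards [this] with n hn _
      exact hn
  filter_upwards [e1, e2, e3] with n h1 h2 h3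
  exact (hΛ n).sep _ (hv n) ⟨h1, h2, h3⟩

variable (hpos : ∀ n, 0 < ε n) (hr : ∀ n, r n < 1 + 11 / 20 * ε n)

include hε hr in
theorem eventually_r {c : ℝ} (hc : 1 < c) : ∀ᶠ n in (U : Filter ι), r n < c := by
  have t : Tendsto (fun n => 1 + 11 / 20 * ε n) U (𝓝 (1 + 11 / 20 * 0)) :=
    (hε.const_mul (11 / 20)).const_add 1
  filter_upwards [t.eventually_lt_const (show 1 + 11 / 20 * 0 < c by linarith)] with n hn
  linarith [hr n]

include hε hr in
theorem le_one_of_le_r {f : ι → ℝ} {c : ℝ} (hf : Tendsto f U (𝓝 c)) (h : ∀ n, f n ≤ r n) :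
    c ≤ 1 := by
  refine le_of_forall_gt_imp_ge_of_dense fun d hd => ?_
  refine le_of_tendsto hf ?_
  filter_upwards [eventually_r hε hr hd] with n hn
  linarith [h n]

include hε hΛ hr in
theorem exists_cover_seq {a : ι → (Fin 4 → ℝ) × ℝ} {b : (Fin 4 → ℝ) × ℝ}
    (hab : Tendsto a U (𝓝 b)) :
    ∃ (q : ι → (Fin 4 → ℝ) × ℝ) (c : (Fin 4 → ℝ) × ℝ), (∀ n, q n ∈ Λ n) ∧
      (∀ n, BLe (ε n) (a n - q n) (r n)) ∧ Tendsto q U (𝓝 c) ∧ NLe (b.1 - c.1) 1 ∧
      |b.2 - c.2| ≤ 1 := by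
  choose q hq hq1 using fun n => (hΛ n).cov (a n)
  have hb : ∀ᶠ n in (U : Filter ι), (∀ i, |(q n).1 i| ≤ (∑ i, |b.1 i|) + |b.2| + 3) ∧
      |(q n).2| ≤ (∑ i, |b.1 i|) + |b.2| + 3 := by
    have h1 : ∀ᶠ n in (U : Filter ι), ∀ i, |(a n).1 i| < |b.1 i| + 1 := by
      rw [eventually_all]
      intro i
      exact (tendsto_fst hab i).abs.eventually_lt_const (by linarith)
    have h2 : ∀ᶠ n in (U : Filter ι), |(a n).2| < |b.2| + 1 :=
      (tendsto_snd' hab).abs.eventually_lt_const (by linarith)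
    filter_upwards [h1, h2, eventually_r hε hr (show (1 : ℝ) < 2 by norm_num)] with n h1 h2 h3
    have hs : 0 ≤ ∑ i, |b.1 i| := Finset.sum_nonneg fun _ _ => abs_nonneg _
    have hs2 : 0 ≤ |b.2| := abs_nonneg _
    constructor
    · intro i
      have e1 := (hq1 n).N.abs_le i
      have e2 := h1 i
      have e3 : |b.1 i| ≤ ∑ i, |b.1 i| :=
        Finset.single_le_sum (f := fun k => |b.1 k|) (fun _ _ => abs_nonneg _) (Finset.mem_univ i)
      have e4 : |(a n).1 i - (q n).1 i| ≤ r n := e1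
      rw [_root_.abs_le] at e4 ⊢
      rw [abs_lt] at e2
      constructor <;> linarith
    · have e1 := (hq1 n).z
      have e4 : |(a n).2 - (q n).2| ≤ r n := e1
      rw [_root_.abs_le] at e4 ⊢
      rw [abs_lt] at h2
      constructor <;> linarith
  obtain ⟨c, hc⟩ := exists_tendsto_of_bounded U q _ hb
  refine ⟨q, c, hq, hq1, hc, ?_, ?_⟩
  · intro i j hij
    have t := (((tendsto_fst hab i).sub (tendsto_fst hc i)).abs).add
      ((tendsto_fst hab j).sub (tendsto_fst hc j)).abs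
    exact le_one_of_le_r hε hr t fun n => (hq1 n).N i j hij
  · exact le_one_of_le_r hε hr ((tendsto_snd' hab).sub (tendsto_snd' hc)).abs
      fun n => (hq1 n).z

include hε hΛ hr in
/-- The limit subgroup is a lattice tiling by the limit prism. -/
theorem tile_limGroup : Tile (limGroup U Λ) where
  sep := by
    rintro a ⟨v, hv, hva⟩ h1 h2
    have h3 := eventually_eq_zero hε hΛ hv hva h1 h2
    have h4 : Tendsto v U (𝓝 0) := by
      refine Tendsto.congr' ?_ (tendsto_const_nhds (x := (0 : (Fin 4 → ℝ) × ℝ)))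
      filter_upwards [h3] with n hn
      exact hn.symm
    exact tendsto_nhds_unique hva h4
  cov a := by
    obtain ⟨q, c, hq, -, hc, h1, h2⟩ := exists_cover_seq hε hΛ hr (a := fun _ => a) (b := a)
      tendsto_const_nhds
    exact ⟨c, ⟨q, hq, hc⟩, h1, h2⟩

end

end Pool.Agent.Lib.P78373f
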