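import Pool.Agent.Lib.P78373f.Limit

/-!
# The lower bound for lattices
-/

namespace Pool.Agent.Lib.P78373f

open Filter Topology

theorem exists_sign (b : ℝ) : ∃ s : ℝ, (s = 1 ∨ s = -1) ∧ s * b = |b| := by
  rcases le_total 0 b with h | h
  · exact ⟨1, Or.inl rfl, by rw [abs_of_nonneg h, one_mul]⟩
  · exact ⟨-1, Or.inr rfl, by rw [abs_of_nonpos h]; ring⟩

theorem aligned {a b s : ℝ} (hs : s = 1 ∨ s = -1) (hb : b ≠ 0) (hsb : s * b = |b|)
    (h : |a - b / 2| + |b| / 2 ≤ |a|) : s * a = |a| := by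
  rcases hs with rfl | rfl
  · have hb' : 0 < b := by
      rcases lt_or_gt_of_ne hb with h1 | h1
      · rw [abs_of_neg h1] at hsb
        linarith
      · exact h1
    rw [abs_of_pos hb'] at h
    rcases le_total 0 a with h1 | h1
    · rw [abs_of_nonneg h1, one_mul]
    · rw [abs_of_nonpos h1, abs_of_neg (by linarith)] at h
      linarith
  · have hb' : b < 0 := by
      rcases lt_or_gt_of_ne hb with h1 | h1
      · exact h1
      · rw [abs_of_pos h1] at hsb
        linarith
    rw [abs_of_neg hb'] at h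
    rcases le_total 0 a with h1 | h1
    · rw [abs_of_nonneg h1, abs_of_pos (by linarith)] at h
      linarith
    · rw [abs_of_nonpos h1]
      ring

theorem force {x c : Fin 4 → ℝ} {i j : Fin 4} (hij : i ≠ j) (hi : x i ≠ 0) (hj : x j ≠ 0)
    (hsum : |x i| + |x j| = 2)
    (hoth : ∀ k l, k ≠ l → ¬(k = i ∧ l = j) → ¬(k = j ∧ l = i) → |x k| + |x l| < 2)
    {si sj : ℝ} (hsi : si = 1 ∨ si = -1) (hsj : sj = 1 ∨ sj = -1) (hxi : si * x i = |x i|)
    (hxj : sj * x j = |x j|) (h1 : ∀ k l, k ≠ l → |c k - x k / 2| + |c l - x l / 2| ≤ 1)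
    (h2 : ¬ NLt c 2) : si * c i + sj * c j = 2 := by
  have tri : ∀ k, |c k| ≤ |c k - x k / 2| + |x k| / 2 := by
    intro k
    have := abs_add_le (c k - x k / 2) (x k / 2)
    rw [sub_add_cancel, abs_div, abs_of_pos (show (0 : ℝ) < 2 by norm_num)] at this
    exact this
  have h3 : 2 ≤ |c i| + |c j| := by
    by_contra hcon
    push Not at hcon
    apply h2
    intro k l hkl
    by_cases c1 : k = i ∧ l = j
    · rw [c1.1, c1.2]
      exact hcon
    · by_cases c2 : k = j ∧ l = i
      · rw [c2.1, c2.2, add_comm]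
        exact hcon
      · have := hoth k l hkl c1 c2
        have := h1 k l hkl
        have := tri k
        have := tri l
        linarith
  have e1 := h1 i j hij
  have e2 := tri i
  have e3 := tri j
  have e4 : si * c i = |c i| := aligned hsi hi hxi (by linarith)
  have e5 : sj * c j = |c j| := aligned hsj hj hxj (by linarith)
  rw [e4, e5]
  linarith

theorem arith {ε r σ β : ℝ} (h0 : 0 < ε) (h1 : ε < 1 / 100) (hr : r < 1 + 11 / 20 * ε)
    (hσ : σ < 41 / 100) (hβ : 1 ≤ β)
    (h : β - ε * σ + 2 * ε * (99 / 100) ≤ (1 + ε) * r) : False := by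
  have h2 : (1 + ε) * r < (1 + ε) * (1 + 11 / 20 * ε) :=
    mul_lt_mul_of_pos_left hr (by linarith)
  have h3 : ε * σ < ε * (41 / 100) := mul_lt_mul_of_pos_left hσ h0
  have h4 : ε * ε < ε * (1 / 100) := mul_lt_mul_of_pos_left h1 h0
  nlinarith

theorem no_lattices {ι : Type*} (U : Ultrafilter ι)
    (Λ : ι → AddSubgroup ((Fin 4 → ℝ) × ℝ)) {ε r : ι → ℝ} (hε : Tendsto ε U (𝓝 0))
    (hΛ : ∀ n, Lat (ε n) (r n) (Λ n)) (hpos : ∀ n, 0 < ε n)
    (hr : ∀ n, r n < 1 + 11 / 20 * ε n) : False := by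
  have hT := tile_limGroup hε hΛ hr
  obtain ⟨p0, hp0, hg0, hz0⟩ := hT.exists_good
  obtain ⟨p, hpT, hg, hz, hz'⟩ : ∃ p ∈ limGroup U Λ, Good p.1 ∧ 0 ≤ p.2 ∧ p.2 ≤ 2 / 5 := by
    rcases le_total 0 p0.2 with h | h
    · exact ⟨p0, hp0, hg0, h, by rwa [abs_of_nonneg h] at hz0⟩
    · refine ⟨-p0, neg_mem hp0, hg0.neg, ?_, ?_⟩
      · rw [Prod.snd_neg]
        linarith
      · rw [Prod.snd_neg]
        rwa [abs_of_nonpos h] at hz0
  obtain ⟨i, j, hij, hxi, hxj, hsum, hoth⟩ := hg
  obtain ⟨v, hv, hvp⟩ := hpT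
  obtain ⟨si, hsi, hsxi⟩ := exists_sign (p.1 i)
  obtain ⟨sj, hsj, hsxj⟩ := exists_sign (p.1 j)
  -- eventual properties of `v n`
  have ev0 : ∀ᶠ n in (U : Filter ι), v n ≠ 0 := by
    have := (tendsto_fst hvp i).eventually_ne hxi
    filter_upwards [this] with n hn h0
    apply hn
    rw [h0]
    rfl
  have ev1 : ∀ᶠ n in (U : Filter ι), ∀ k l, k ≠ l → ¬(k = i ∧ l = j) → ¬(k = j ∧ l = i) →
      |(v n).1 k| + |(v n).1 l| < 2 := by
    rw [eventually_all]
    intro k
    rw [eventually_all]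
    intro l
    by_cases hc : k ≠ l ∧ ¬(k = i ∧ l = j) ∧ ¬(k = j ∧ l = i)
    · have := ((tendsto_fst hvp k).abs.add (tendsto_fst hvp l).abs).eventually_lt_const
        (hoth k l hc.1 hc.2.1 hc.2.2)
      filter_upwards [this] with n hn _ _ _
      exact hn
    · exact Eventually.of_forall fun n h1 h2 h3 => absurd ⟨h1, h2, h3⟩ hc
  have ev2 : ∀ᶠ n in (U : Filter ι), (v n).2 < 41 / 100 :=
    (tendsto_snd' hvp).eventually_lt_const (by linarith)
  have ev3 : ∀ᶠ n in (U : Filter ι), -(1 / 100) < (v n).2 :=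
    (tendsto_snd' hvp).eventually_const_lt (by linarith)
  have ev4 : ∀ᶠ n in (U : Filter ι), ε n < 1 / 100 := hε.eventually_lt_const (by norm_num)
  have ev5 : ∀ᶠ n in (U : Filter ι), si * (v n).1 i = |(v n).1 i| := by
    have t := (tendsto_fst hvp i).const_mul si
    rw [hsxi] at t
    have := t.eventually_const_lt (abs_pos.2 hxi)
    filter_upwards [this] with n hn
    rw [← abs_of_pos hn, abs_mul]
    rcases hsi with rfl | rfl <;> simp
  have ev6 : ∀ᶠ n in (U : Filter ι), sj * (v n).1 j = |(v n).1 j| := by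
    have t := (tendsto_fst hvp j).const_mul sj
    rw [hsxj] at t
    have := t.eventually_const_lt (abs_pos.2 hxj)
    filter_upwards [this] with n hn
    rw [← abs_of_pos hn, abs_mul]
    rcases hsj with rfl | rfl <;> simp
  have ev7 : ∀ᶠ n in (U : Filter ι), 2 ≤ |(v n).1 i| + |(v n).1 j| := by
    filter_upwards [ev0, ev1, ev2, ev3] with n h0 h1 h2 h3
    by_contra hcon
    push Not at hcon
    have hN : NLt (v n).1 2 := by
      intro k l hkl
      by_cases c1 : k = i ∧ l = j
      · rw [c1.1, c1.2]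
        exact hcon
      · by_cases c2 : k = j ∧ l = i
        · rw [c2.1, c2.2, add_comm]
          exact hcon
        · exact h1 k l hkl c1 c2
    have hz : |(v n).2| < 1 := by
      rw [abs_lt]
      constructor <;> linarith
    refine h0 ((hΛ n).sep _ (hv n) ⟨hN, by linarith, ?_⟩)
    intro k l hkl
    have e1 := hN k l hkl
    have e2 : ε n * |(v n).2| < ε n * 1 := mul_lt_mul_of_pos_left hz (hpos n)
    linarith
  -- the test points
  obtain ⟨w, hwi, hwj⟩ : ∃ w : Fin 4 → ℝ, w i = si ∧ w j = sj := by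
    refine ⟨fun k => if k = i then si else sj, by simp, ?_⟩
    simp [Ne.symm hij]
  set a : ι → (Fin 4 → ℝ) × ℝ := fun n =>
    ((1 / 2 : ℝ) • (v n).1 - (ε n * (v n).2 / 2) • w, 99 / 100) with ha
  have hab : Tendsto a U (𝓝 ((1 / 2 : ℝ) • p.1 - (0 * p.2 / 2) • w, 99 / 100)) := by
    refine Tendsto.prodMk_nhds ?_ tendsto_const_nhds
    refine Tendsto.sub ?_ ?_
    · exact Tendsto.const_smul ((continuous_fst.tendsto p).comp hvp) _
    · exact Tendsto.smul_const ((hε.mul (tendsto_snd' hvp)).div_const 2) w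
  obtain ⟨q, c, hq, hqB, hqc, hc1, hc2⟩ := exists_cover_seq hε hΛ hr hab
  have hcT : c ∈ limGroup U Λ := ⟨q, hq, hqc⟩
  have hcN : ∀ k l, k ≠ l → |c.1 k - p.1 k / 2| + |c.1 l - p.1 l / 2| ≤ 1 := by
    intro k l hkl
    have := hc1 k l hkl
    simp only [zero_mul, zero_div, zero_smul, sub_zero, Pi.sub_apply, Pi.smul_apply,
      smul_eq_mul] at this
    rw [abs_sub_comm (c.1 k), abs_sub_comm (c.1 l)]
    convert this using 4 <;> ring
  have hc2' : |99 / 100 - c.2| ≤ 1 := hc2
  rw [abs_le] at hc2'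
  obtain ⟨hc3, hc4⟩ := hc2'
  -- the covering element is `0` or `p`
  have hcase : c = 0 ∨ c = p := by
    by_contra hcon
    push Not at hcon
    obtain ⟨n1, n2⟩ := hcon
    have f1 : si * c.1 i + sj * c.1 j = 2 := by
      refine force hij hxi hxj hsum hoth hsi hsj hsxi hsxj hcN fun hN => n1 ?_
      exact hT.sep c hcT hN (by rw [abs_lt]; constructor <;> linarith)
    have f2 : si * (p.1 - c.1) i + sj * (p.1 - c.1) j = 2 := by
      refine force hij hxi hxj hsum hoth hsi hsj hsxi hsxj ?_ fun hN => n2 ?_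
      · intro k l hkl
        have := hcN k l hkl
        rw [Pi.sub_apply, Pi.sub_apply]
        rw [abs_sub_comm (c.1 k), abs_sub_comm (c.1 l)] at this
        convert this using 3 <;> ring
      · have := hT.sep (p - c) (sub_mem ⟨v, hv, hvp⟩ hcT) hN (by
          rw [Prod.snd_sub, abs_lt]
          constructor <;> linarith)
        exact (sub_eq_zero.1 this).symm
    rw [Pi.sub_apply, Pi.sub_apply] at f2
    linarith
  have habs : ∀ (s t : ℝ), (s = 1 ∨ s = -1) → s * t ≤ |t| := by
    rintro s t (rfl | rfl)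
    · rw [one_mul]
      exact le_abs_self t
    · have := neg_le_abs t
      linarith
  have habs' : ∀ (s t : ℝ), (s = 1 ∨ s = -1) → -(s * t) ≤ |t| := by
    rintro s t (rfl | rfl)
    · rw [one_mul]
      exact neg_le_abs t
    · have := le_abs_self t
      linarith
  have hss : ∀ s : ℝ, (s = 1 ∨ s = -1) → s * s = 1 := by
    rintro s (rfl | rfl) <;> norm_num
  rcases hcase with rfl | rfl
  · have ev8 := eventually_eq_zero hε hΛ hq hqc
      (by
        intro k l _
        simp only [Prod.fst_zero, Pi.zero_apply, abs_zero]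
        norm_num)
      (by
        simp only [Prod.snd_zero, abs_zero]
        norm_num)
    obtain ⟨n, h2, h4, h5, h6, h7, h8⟩ :=
      (ev2.and (ev4.and (ev5.and (ev6.and (ev7.and ev8))))).exists
    have hB := (hqB n).s i j hij
    rw [h8, sub_zero] at hB
    have ei : (a n).1 i = 1 / 2 * (v n).1 i - ε n * (v n).2 / 2 * si := by
      simp only [ha, Pi.sub_apply, Pi.smul_apply, smul_eq_mul, hwi]
    have ej : (a n).1 j = 1 / 2 * (v n).1 j - ε n * (v n).2 / 2 * sj := by
      simp only [ha, Pi.sub_apply, Pi.smul_apply, smul_eq_mul, hwj]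
    have ez : |(a n).2| = 99 / 100 := by
      show |(99 / 100 : ℝ)| = 99 / 100
      exact abs_of_pos (by norm_num)
    have gi := habs si ((a n).1 i) hsi
    have gj := habs sj ((a n).1 j) hsj
    have gi' : si * (a n).1 i = |(v n).1 i| / 2 - ε n * (v n).2 / 2 := by
      rw [ei, ← h5]
      linear_combination (-(ε n * (v n).2 / 2)) * hss si hsi
    have gj' : sj * (a n).1 j = |(v n).1 j| / 2 - ε n * (v n).2 / 2 := by
      rw [ej, ← h6]
      linear_combination (-(ε n * (v n).2 / 2)) * hss sj hsj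
    rw [ez] at hB
    refine arith (β := (|(v n).1 i| + |(v n).1 j|) / 2) (hpos n) h4 (hr n) h2 (by linarith) ?_
    linarith
  · have ev8 := eventually_eq_zero hε hΛ (v := fun n => q n - v n)
      (fun n => sub_mem (hq n) (hv n)) (hqc.sub hvp)
      (by
        intro k l _
        simp only [sub_self, Prod.fst_zero, Pi.zero_apply, abs_zero]
        norm_num)
      (by
        simp only [sub_self, Prod.snd_zero, abs_zero]
        norm_num)
    obtain ⟨n, h2, h3, h4, h5, h6, h7, h8⟩ :=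
      (ev2.and (ev3.and (ev4.and (ev5.and (ev6.and (ev7.and ev8)))))).exists
    have h8' : q n = v n := sub_eq_zero.1 h8
    have hB := (hqB n).s i j hij
    rw [h8'] at hB
    have ei : (a n - v n).1 i = -(1 / 2 * (v n).1 i) - ε n * (v n).2 / 2 * si := by
      simp only [ha, Prod.fst_sub, Pi.sub_apply, Pi.smul_apply, smul_eq_mul, hwi]
      ring
    have ej : (a n - v n).1 j = -(1 / 2 * (v n).1 j) - ε n * (v n).2 / 2 * sj := by
      simp only [ha, Prod.fst_sub, Pi.sub_apply, Pi.smul_apply, smul_eq_mul, hwj]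
      ring
    have ez : |(a n - v n).2| = 99 / 100 - (v n).2 := by
      show |99 / 100 - (v n).2| = 99 / 100 - (v n).2
      exact abs_of_pos (by linarith)
    have gi := habs' si ((a n - v n).1 i) hsi
    have gj := habs' sj ((a n - v n).1 j) hsj
    have gi' : si * (a n - v n).1 i = -|(v n).1 i| / 2 - ε n * (v n).2 / 2 := by
      rw [ei, ← h5]
      linear_combination (-(ε n * (v n).2 / 2)) * hss si hsi
    have gj' : sj * (a n - v n).1 j = -|(v n).1 j| / 2 - ε n * (v n).2 / 2 := by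
      rw [ej, ← h6]
      linear_combination (-(ε n * (v n).2 / 2)) * hss sj hsj
    rw [ez] at hB
    refine arith (β := (|(v n).1 i| + |(v n).1 j|) / 2) (hpos n) h4 (hr n) h2 (by linarith) ?_
    linarith

end Pool.Agent.Lib.P78373f
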