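import Pool.Agent.Lib.P78373f.Lower

/-!
# The normed spaces
-/

namespace Pool.Agent.Lib.P78373f

open Filter Topology

/-- The norm `N` on `ℝ⁴`: the sum of the two largest absolute values of coordinates. -/
noncomputable def nrm (x : Fin 4 → ℝ) : ℝ :=
  ⨆ p : {p : Fin 4 × Fin 4 // p.1 ≠ p.2}, (|x p.1.1| + |x p.1.2|)

instance : Nonempty {p : Fin 4 × Fin 4 // p.1 ≠ p.2} := ⟨⟨(0, 1), by decide⟩⟩

theorem nrm_le_iff {x : Fin 4 → ℝ} {c : ℝ} : nrm x ≤ c ↔ NLe x c := by
  constructor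
  · intro h i j hij
    have := le_ciSup (f := fun p : {p : Fin 4 × Fin 4 // p.1 ≠ p.2} => |x p.1.1| + |x p.1.2|)
      (Finite.bddAbove_range _) ⟨(i, j), hij⟩
    exact this.trans h
  · intro h
    exact ciSup_le fun p => h p.1.1 p.1.2 p.2

theorem nLe_nrm (x : Fin 4 → ℝ) : NLe x (nrm x) := nrm_le_iff.1 le_rfl

theorem nrm_nonneg (x : Fin 4 → ℝ) : 0 ≤ nrm x := by
  have := nLe_nrm x 0 1 (by decide)
  linarith [abs_nonneg (x 0), abs_nonneg (x 1)]

theorem nrm_smul (c : ℝ) (x : Fin 4 → ℝ) : nrm (c • x) = |c| * nrm x := by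
  unfold nrm
  rw [Real.mul_iSup_of_nonneg (abs_nonneg c)]
  congr 1
  ext p
  simp only [Pi.smul_apply, smul_eq_mul, abs_mul]
  ring

theorem nrm_add (x y : Fin 4 → ℝ) : nrm (x + y) ≤ nrm x + nrm y :=
  nrm_le_iff.2 ((nLe_nrm x).add (nLe_nrm y))

theorem nrm_eq_zero {x : Fin 4 → ℝ} (h : nrm x = 0) : x = 0 := by
  ext i
  have := (nLe_nrm x).abs_le i
  rw [h] at this
  simpa using this

theorem nrm_lt_of {x : Fin 4 → ℝ} {c : ℝ} (h : NLt x c) : nrm x < c := by
  obtain ⟨p, hp⟩ := exists_eq_ciSup_of_finite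
    (f := fun p : {p : Fin 4 × Fin 4 // p.1 ≠ p.2} => |x p.1.1| + |x p.1.2|)
  have := h p.1.1 p.1.2 p.2
  unfold nrm
  rw [← hp]
  exact this

/-- The small parameter. -/
noncomputable def eps (n : ℕ) : ℝ := 1 / ((n : ℝ) + 1)

theorem eps_pos (n : ℕ) : 0 < eps n := by
  unfold eps
  positivity

/-- The vector space `ℝ⁴ × ℝ`, to be given the norm with parameter `eps n`. -/
def Sp (_n : ℕ) : Type := (Fin 4 → ℝ) × ℝ

namespace Sp

variable {n : ℕ}

instance : AddCommGroup (Sp n) := inferInstanceAs (AddCommGroup ((Fin 4 → ℝ) × ℝ))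

instance : Module ℝ (Sp n) := inferInstanceAs (Module ℝ ((Fin 4 → ℝ) × ℝ))

/-- The norm. -/
noncomputable def no (n : ℕ) (v : (Fin 4 → ℝ) × ℝ) : ℝ :=
  max (max (nrm v.1) |v.2|) ((nrm v.1 + 2 * eps n * |v.2|) / (1 + eps n))

theorem no_le_iff {v : (Fin 4 → ℝ) × ℝ} {r : ℝ} : no n v ≤ r ↔ BLe (eps n) v r := by
  have he := eps_pos n
  have h1 : (nrm v.1 + 2 * eps n * |v.2|) / (1 + eps n) ≤ r ↔
      NLe v.1 ((1 + eps n) * r - 2 * eps n * |v.2|) := by
    rw [div_le_iff₀ (by linarith), ← nrm_le_iff]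
    constructor <;> intro h <;> linarith
  unfold no
  rw [max_le_iff, max_le_iff, h1, nrm_le_iff]
  constructor
  · rintro ⟨⟨a, b⟩, c⟩
    exact ⟨a, b, fun i j hij => by linarith [c i j hij]⟩
  · rintro ⟨a, b, c⟩
    exact ⟨⟨a, b⟩, fun i j hij => by linarith [c i j hij]⟩

theorem no_lt_of {v : (Fin 4 → ℝ) × ℝ} {r : ℝ} (h : BLt (eps n) v r) : no n v < r := by
  have he := eps_pos n
  unfold no
  refine max_lt (max_lt (nrm_lt_of h.N) h.z) ?_
  rw [div_lt_iff₀ (by linarith)]
  have : NLt v.1 ((1 + eps n) * r - 2 * eps n * |v.2|) :=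
    fun i j hij => by linarith [h.s i j hij]
  have := nrm_lt_of this
  linarith

theorem bLe_no (v : (Fin 4 → ℝ) × ℝ) : BLe (eps n) v (no n v) := no_le_iff.1 le_rfl

noncomputable instance : Norm (Sp n) := ⟨fun v => no n v⟩

theorem norm_def (v : Sp n) : ‖v‖ = no n v := rfl

theorem core (n : ℕ) : NormedSpace.Core ℝ (Sp n) where
  norm_nonneg v := by
    rw [norm_def]
    exact (nrm_nonneg _).trans ((le_max_left _ _).trans (le_max_left _ _))
  norm_smul c v := by
    have he := eps_pos n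
    rw [norm_def, norm_def, Real.norm_eq_abs]
    unfold no
    have h1 : (c • v : (Fin 4 → ℝ) × ℝ).1 = c • v.1 := rfl
    have h2 : (c • v : (Fin 4 → ℝ) × ℝ).2 = c * v.2 := rfl
    have h3 : (c • v : (Fin 4 → ℝ) × ℝ) = (c • v : Sp n) := rfl
    rw [h3] at h1 h2
    rw [h1, h2, nrm_smul, abs_mul, mul_max_of_nonneg _ _ (abs_nonneg c),
      mul_max_of_nonneg _ _ (abs_nonneg c)]
    congr 1
    ring
  norm_triangle v w := by
    rw [norm_def, norm_def, norm_def, no_le_iff]
    have h1 := bLe_no (n := n) v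
    have h2 := bLe_no (n := n) w
    have h4 := abs_add_le v.2 w.2
    have he := eps_pos n
    refine ⟨h1.N.add h2.N, h4.trans (add_le_add h1.z h2.z), ?_⟩
    intro i j hij
    have e1 := h1.s i j hij
    have e2 := h2.s i j hij
    have e3 := abs_add_le (v.1 i) (w.1 i)
    have e4 := abs_add_le (v.1 j) (w.1 j)
    have e5 : 2 * eps n * |v.2 + w.2| ≤ 2 * eps n * (|v.2| + |w.2|) :=
      mul_le_mul_of_nonneg_left h4 (by linarith)
    show |v.1 i + w.1 i| + |v.1 j + w.1 j| + 2 * eps n * |v.2 + w.2| ≤ _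
    linarith
  norm_eq_zero_iff v := by
    rw [norm_def]
    constructor
    · intro h
      have h1 := bLe_no (n := n) v
      rw [h] at h1
      have h2 : v.1 = 0 := by
        ext i
        have := h1.N.abs_le i
        simpa using this
      have h3 : v.2 = 0 := by
        have := h1.z
        simpa using this
      exact Prod.ext h2 h3
    · rintro rfl
      have h0 : no n (0 : (Fin 4 → ℝ) × ℝ) ≤ 0 := by
        rw [no_le_iff]
        refine ⟨fun i j _ => by simp, by simp, fun i j _ => by simp⟩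
      refine le_antisymm h0 ?_
      exact (nrm_nonneg _).trans ((le_max_left _ _).trans (le_max_left _ _))

noncomputable instance : NormedAddCommGroup (Sp n) := NormedAddCommGroup.ofCore (core n)

noncomputable instance : NormedSpace ℝ (Sp n) := NormedSpace.ofCore (core n)

end Sp

end Pool.Agent.Lib.P78373f
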