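import Pool.Agent.Lib.P78373f.Facet

/-!
# Rigidity of the facets
-/

namespace Pool.Agent.Lib.P78373f

open Filter Topology

/-- Separation in the coordinates of the facet. -/
def Sep (a b c : ℝ) : Prop := 2 ≤ |a| ∨ 2 ≤ |b| ∨ 2 ≤ |c| ∨ 4 ≤ |a| + |b| + |c|

theorem Sep.swap12 {a b c : ℝ} (h : Sep a b c) : Sep b a c := by
  rcases h with h | h | h | h
  · exact Or.inr (Or.inl h)
  · exact Or.inl h
  · exact Or.inr (Or.inr (Or.inl h))
  · exact Or.inr (Or.inr (Or.inr (by linarith)))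

theorem Sep.swap13 {a b c : ℝ} (h : Sep a b c) : Sep c b a := by
  rcases h with h | h | h | h
  · exact Or.inr (Or.inr (Or.inl h))
  · exact Or.inr (Or.inl h)
  · exact Or.inl h
  · exact Or.inr (Or.inr (Or.inr (by linarith)))

theorem core_aux (x y z : ℝ) (h : |x| + |y| + |z| ≤ 1) (hy : |y| < 1) (hz : |z| < 1)
    (u1 u2 u3 : ℝ) (hu : |1 - u1| + |u2| + |u3| ≤ 1) (hs : Sep (u1 - x) (u2 - y) (u3 - z)) :
    2 + x ≤ u1 := by
  have hx : |x| ≤ 1 := by linarith [abs_nonneg y, abs_nonneg z]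
  have e1 := abs_nonneg (1 - u1)
  have e2 := abs_nonneg u2
  have e3 := abs_nonneg u3
  have e4 : |u2 - y| ≤ |u2| + |y| := abs_sub _ _
  have e5 : |u3 - z| ≤ |u3| + |z| := abs_sub _ _
  have e6 : |u1 - x| ≤ |1 - u1| + 1 + |x| := by
    have a1 := abs_sub (1 - x) (1 - u1)
    have a2 := abs_sub 1 x
    rw [abs_one] at a2
    have a3 : (1 - x) - (1 - u1) = u1 - x := by ring
    rw [a3] at a1
    linarith
  rcases hs with hs | hs | hs | hs
  · have e7 : -(1 : ℝ) ≤ 1 - u1 ∧ 1 - u1 ≤ 1 := abs_le.1 (by linarith)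
    have e8 := abs_le.1 hx
    rcases le_abs.1 hs with h1 | h1
    · linarith
    · exfalso
      linarith
  · exfalso; linarith
  · exfalso; linarith
  · exfalso; linarith

theorem core (x y z : ℝ) (h : |x| + |y| + |z| ≤ 1) (hx : |x| < 1) (hy : |y| < 1) (hz : |z| < 1)
    (hmin : |x| < |y| + |z|)
    (u1 u2 u3 : ℝ) (hu : |1 - u1| + |u2| + |u3| ≤ 1)
    (hus : (u1 = x ∧ u2 = y ∧ u3 = z) ∨ Sep (u1 - x) (u2 - y) (u3 - z))
    (v1 v2 v3 : ℝ) (hv : |-1 - v1| + |v2| + |v3| ≤ 1)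
    (hvs : (v1 = x ∧ v2 = y ∧ v3 = z) ∨ Sep (v1 - x) (v2 - y) (v3 - z))
    (h2 : (2 * x - u1 - v1 = 0 ∧ 2 * y - u2 - v2 = 0 ∧ 2 * z - u3 - v3 = 0) ∨
      Sep (2 * x - u1 - v1) (2 * y - u2 - v2) (2 * z - u3 - v3)) : False := by
  have hu' : Sep (u1 - x) (u2 - y) (u3 - z) := by
    rcases hus with ⟨rfl, rfl, rfl⟩ | h1
    · exfalso
      have := abs_sub_abs_le_abs_sub 1 u1
      rw [abs_one] at this
      linarith
    · exact h1
  have hv' : Sep (v1 - x) (v2 - y) (v3 - z) := by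
    rcases hvs with ⟨rfl, rfl, rfl⟩ | h1
    · exfalso
      have := abs_sub_abs_le_abs_sub (-1) v1
      rw [abs_neg, abs_one] at this
      linarith
    · exact h1
  have e1 := core_aux x y z h hy hz u1 u2 u3 hu hu'
  have e2 : 2 + -x ≤ -v1 := by
    refine core_aux (-x) y z (by rwa [abs_neg]) hy hz (-v1) v2 v3 ?_ ?_
    · have : |1 - -v1| = |-1 - v1| := by
        rw [← abs_neg]
        congr 1
        ring
      rwa [this]
    · have : |-v1 - -x| = |v1 - x| := by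
        rw [← abs_neg]
        congr 1
        ring
      unfold Sep
      rw [this]
      exact hv'
  have a1 := abs_nonneg u2
  have a2 := abs_nonneg u3
  have a3 := abs_nonneg v2
  have a4 := abs_nonneg v3
  have e3 : u1 ≤ 2 := by
    have := neg_abs_le (1 - u1)
    linarith
  have e4 : -2 ≤ v1 := by
    have := le_abs_self (-1 - v1)
    linarith
  have hx0 : x = 0 := by linarith
  have hu1 : u1 = 2 := by linarith
  have hv1 : v1 = -2 := by linarith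
  rw [hu1] at hu
  rw [hv1] at hv
  norm_num at hu hv
  have hu2 : u2 = 0 := abs_eq_zero.1 (by linarith)
  have hu3 : u3 = 0 := abs_eq_zero.1 (by linarith)
  have hv2 : v2 = 0 := abs_eq_zero.1 (by linarith)
  have hv3 : v3 = 0 := abs_eq_zero.1 (by linarith)
  subst hu1 hv1 hu2 hu3 hv2 hv3 hx0
  rcases h2 with ⟨-, h3, h4⟩ | h3
  · have hy0 : y = 0 := by linarith
    have hz0 : z = 0 := by linarith
    rw [hy0, hz0] at hmin
    simp at hmin
  · unfold Sep at h3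
    norm_num [abs_mul] at h3
    rw [abs_zero] at h
    rcases h3 with h3 | h3 | h3 <;> linarith

theorem core_all (x y z : ℝ) (h : |x| + |y| + |z| ≤ 1) (hx : |x| < 1) (hy : |y| < 1) (hz : |z| < 1)
    (u : Fin 3 → Fin 2 → Fin 3 → ℝ)
    (h00 : |1 - u 0 0 0| + |u 0 0 1| + |u 0 0 2| ≤ 1)
    (h01 : |-1 - u 0 1 0| + |u 0 1 1| + |u 0 1 2| ≤ 1)
    (h10 : |u 1 0 0| + |1 - u 1 0 1| + |u 1 0 2| ≤ 1)
    (h11 : |u 1 1 0| + |-1 - u 1 1 1| + |u 1 1 2| ≤ 1)
    (h20 : |u 2 0 0| + |u 2 0 1| + |1 - u 2 0 2| ≤ 1)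
    (h21 : |u 2 1 0| + |u 2 1 1| + |-1 - u 2 1 2| ≤ 1)
    (hs : ∀ k e, (u k e 0 = x ∧ u k e 1 = y ∧ u k e 2 = z) ∨
      Sep (u k e 0 - x) (u k e 1 - y) (u k e 2 - z))
    (h2 : ∀ k, (2 * x - u k 0 0 - u k 1 0 = 0 ∧ 2 * y - u k 0 1 - u k 1 1 = 0 ∧
        2 * z - u k 0 2 - u k 1 2 = 0) ∨
      Sep (2 * x - u k 0 0 - u k 1 0) (2 * y - u k 0 1 - u k 1 1) (2 * z - u k 0 2 - u k 1 2)) :
    x = 0 ∧ y = 0 ∧ z = 0 := by
  have ax := abs_nonneg x
  have ay := abs_nonneg y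
  have az := abs_nonneg z
  by_contra hcon
  have hpos : 0 < |x| + |y| + |z| := by
    rcases lt_or_eq_of_le (add_nonneg (add_nonneg ax ay) az) with h1 | h1
    · exact h1
    · exfalso
      exact hcon ⟨abs_eq_zero.1 (by linarith), abs_eq_zero.1 (by linarith),
        abs_eq_zero.1 (by linarith)⟩
  rcases le_total |x| |y| with h3 | h3 <;> rcases le_total |y| |z| with h4 | h4 <;>
    rcases le_total |x| |z| with h5 | h5
  all_goals first
    | exact core x y z h hx hy hz (by linarith) _ _ _ h00 (hs 0 0) _ _ _ h01 (hs 0 1) (h2 0)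
    | exact core y x z (by linarith) hy hx hz (by linarith) (u 1 0 1) (u 1 0 0) (u 1 0 2)
        (by linarith)
        ((hs 1 0).imp (fun h => ⟨h.2.1, h.1, h.2.2⟩) Sep.swap12) (u 1 1 1) (u 1 1 0) (u 1 1 2)
        (by linarith) ((hs 1 1).imp (fun h => ⟨h.2.1, h.1, h.2.2⟩) Sep.swap12)
        ((h2 1).imp (fun h => ⟨h.2.1, h.1, h.2.2⟩) Sep.swap12)
    | exact core z y x (by linarith) hz hy hx (by linarith) (u 2 0 2) (u 2 0 1) (u 2 0 0)
        (by linarith)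
        ((hs 2 0).imp (fun h => ⟨h.2.2, h.2.1, h.1⟩) Sep.swap13) (u 2 1 2) (u 2 1 1) (u 2 1 0)
        (by linarith) ((hs 2 1).imp (fun h => ⟨h.2.2, h.2.1, h.1⟩) Sep.swap13)
        ((h2 2).imp (fun h => ⟨h.2.2, h.2.1, h.1⟩) Sep.swap13)

/-- From the 24-cell to the coordinates of the octahedral facet. -/
theorem octa {y : Fin 4 → ℝ} {c : ℝ} (h : NLe y 1) (hc : y 0 + y 1 = -c) :
    |y 0 - y 1| + |y 2 + y 3| + |y 2 - y 3| ≤ 2 - c := by
  have h02 := h 0 2 (by decide)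
  have h03 := h 0 3 (by decide)
  have h12 := h 1 2 (by decide)
  have h13 := h 1 3 (by decide)
  have key : ∀ a : ℝ, a + |y 2| ≤ 1 → a + |y 3| ≤ 1 → |y 2 + y 3| + |y 2 - y 3| ≤ 2 - 2 * a := by
    intro a h1 h2
    rcases abs_cases (y 2) with ⟨e1, _⟩ | ⟨e1, _⟩ <;> rcases abs_cases (y 3) with ⟨e2, _⟩ | ⟨e2, _⟩ <;>
    rcases abs_cases (y 2 + y 3) with ⟨e3, _⟩ | ⟨e3, _⟩ <;>
    rcases abs_cases (y 2 - y 3) with ⟨e4, _⟩ | ⟨e4, _⟩ <;> linarith
  have e0 := key _ h02 h03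
  have e1 := key _ h12 h13
  rcases abs_cases (y 0 - y 1) with ⟨e2, _⟩ | ⟨e2, _⟩
  · have := neg_abs_le (y 1)
    linarith
  · have := neg_abs_le (y 0)
    linarith

namespace Tile

variable {L : AddSubgroup ((Fin 4 → ℝ) × ℝ)} (hL : Tile L)
  (h02 : ((0 : Fin 4 → ℝ), (2 : ℝ)) ∈ L)

include h02 in
theorem vert_mem (k : ℤ) : ((0 : Fin 4 → ℝ), 2 * (k : ℝ)) ∈ L := by
  have := L.zsmul_mem h02 k
  have h1 : k • ((0 : Fin 4 → ℝ), (2 : ℝ)) = ((0 : Fin 4 → ℝ), 2 * (k : ℝ)) := by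
    rw [Prod.smul_mk, smul_zero, zsmul_eq_mul, mul_comm]
  rwa [h1] at this

include h02 in
theorem exists_reduce (p : (Fin 4 → ℝ) × ℝ) (hp : p ∈ L) :
    ∃ k : ℤ, (p.1, p.2 - 2 * (k : ℝ)) ∈ L ∧ |p.2 - 2 * (k : ℝ)| ≤ 1 := by
  refine ⟨round (p.2 / 2), ?_, ?_⟩
  · have := L.sub_mem hp (vert_mem h02 (round (p.2 / 2)))
    have h1 : p - ((0 : Fin 4 → ℝ), 2 * (round (p.2 / 2) : ℝ)) =
        (p.1, p.2 - 2 * (round (p.2 / 2) : ℝ)) := by
      ext <;> simp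
    rwa [h1] at this
  · have h1 := abs_sub_round (p.2 / 2)
    have h2 : p.2 - 2 * (round (p.2 / 2) : ℝ) = 2 * (p.2 / 2 - round (p.2 / 2)) := by ring
    rw [h2, abs_mul, abs_two]
    linarith

include hL h02 in
theorem sep' (p : (Fin 4 → ℝ) × ℝ) (hp : p ∈ L) (hN : NLt p.1 2) : p.1 = 0 := by
  obtain ⟨k, hk, hk1⟩ := exists_reduce h02 p hp
  have := hL.sep _ hk hN (by show |p.2 - 2 * (k : ℝ)| < 2; linarith)
  exact congrArg Prod.fst this

include hL h02 in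
theorem sep01 (p : (Fin 4 → ℝ) × ℝ) (hp : p ∈ L) (h01 : p.1 0 + p.1 1 = 0) :
    (p.1 0 - p.1 1 = 0 ∧ p.1 2 + p.1 3 = 0 ∧ p.1 2 - p.1 3 = 0) ∨
      Sep (p.1 0 - p.1 1) (p.1 2 + p.1 3) (p.1 2 - p.1 3) := by
  by_cases hN : NLt p.1 2
  · left
    have := sep' hL h02 p hp hN
    rw [this]
    simp
  · right
    unfold NLt at hN
    push Not at hN
    obtain ⟨i, j, hij, h⟩ := hN
    have e1 : |p.1 0| = |p.1 0 - p.1 1| / 2 := by
      have : p.1 0 - p.1 1 = 2 * p.1 0 := by linarith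
      rw [this, abs_mul, abs_two]
      ring
    have e2 : |p.1 1| = |p.1 0 - p.1 1| / 2 := by
      have : p.1 0 - p.1 1 = -(2 * p.1 1) := by linarith
      rw [this, abs_neg, abs_mul, abs_two]
      ring
    have e3 : |p.1 2| ≤ (|p.1 2 + p.1 3| + |p.1 2 - p.1 3|) / 2 := by
      have := abs_add_le (p.1 2 + p.1 3) (p.1 2 - p.1 3)
      have h1 : p.1 2 + p.1 3 + (p.1 2 - p.1 3) = 2 * p.1 2 := by ring
      rw [h1, abs_mul, abs_two] at this
      linarith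
    have e4 : |p.1 3| ≤ (|p.1 2 + p.1 3| + |p.1 2 - p.1 3|) / 2 := by
      have := abs_sub (p.1 2 + p.1 3) (p.1 2 - p.1 3)
      have h1 : p.1 2 + p.1 3 - (p.1 2 - p.1 3) = 2 * p.1 3 := by ring
      rw [h1, abs_mul, abs_two] at this
      linarith
    have e5 : |p.1 2| + |p.1 3| ≤ |p.1 2 + p.1 3| ∨ |p.1 2| + |p.1 3| ≤ |p.1 2 - p.1 3| := by
      rcases abs_cases (p.1 2) with ⟨a1, _⟩ | ⟨a1, _⟩ <;>
      rcases abs_cases (p.1 3) with ⟨a2, _⟩ | ⟨a2, _⟩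
      · left; rw [a1, a2]; exact le_abs_self _
      · right; rw [a1, a2]; exact le_trans (le_of_eq (by ring)) (le_abs_self _)
      · right; rw [a1, a2]; exact le_trans (le_of_eq (by ring)) (neg_le_abs _)
      · left; rw [a1, a2]; exact le_trans (le_of_eq (by ring)) (neg_le_abs _)
    unfold Sep
    fin_cases i <;> fin_cases j <;> simp only [Fin.zero_eta, Fin.mk_one, Fin.reduceFinMk] at h hij
    all_goals first
      | exact absurd rfl hij
      | (left; linarith)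
      | (right; right; right; linarith)
      | (rcases e5 with e5 | e5
         · right; left; linarith
         · right; right; left; linarith)

end Tile

end Pool.Agent.Lib.P78373f
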