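import Pool.Agent.Lib.P78373f.Rigid

/-!
# The root `e 0 + e 1` lies in the projection
-/

namespace Pool.Agent.Lib.P78373f

open Filter Topology

theorem abs_add_abs_lt {u v : ℝ} (h1 : u + v < 1) (h2 : u - v < 1) (h3 : -u + v < 1)
    (h4 : -u - v < 1) : |u| + |v| < 1 := by
  rcases abs_cases u with ⟨e1, _⟩ | ⟨e1, _⟩ <;> rcases abs_cases v with ⟨e2, _⟩ | ⟨e2, _⟩ <;>
    rw [e1, e2] <;> linarith

namespace Tile

variable {L : AddSubgroup ((Fin 4 → ℝ) × ℝ)} (hL : Tile L)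
  (h02 : ((0 : Fin 4 → ℝ), (2 : ℝ)) ∈ L)

include hL in
theorem exists_vertex (a d : Fin 4 → ℝ)
    (h1 : ∀ s : ℝ, 0 < s → s < 1 / 100 →
      0 < a 0 + s * d 0 ∧ 0 < a 1 + s * d 1 ∧ 1 < (a 0 + s * d 0) + (a 1 + s * d 1) ∧
      (a 0 + s * d 0) - (a 1 + s * d 1) < 1 ∧ (a 1 + s * d 1) - (a 0 + s * d 0) < 1)
    (h2 : a 0 + a 1 = 1)
    (h3 : ∀ s : ℝ, 0 < s → s < 1 / 100 → ∀ k l, k ≠ l → ¬(k = 0 ∧ l = 1) → ¬(k = 1 ∧ l = 0) →
      |a k + s * d k| + |a l + s * d l| < 1)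
    (g1 g2 g3 : ℝ) (hg1 : a 0 - a 1 = g1) (hg2 : a 2 + a 3 = g2) (hg3 : a 2 - a 3 = g3) :
    ∃ p ∈ L, p.1 0 + p.1 1 = 2 ∧
      |g1 - (p.1 0 - p.1 1)| + |g2 - (p.1 2 + p.1 3)| + |g3 - (p.1 2 - p.1 3)| ≤ 1 := by
  subst hg1 hg2 hg3
  obtain ⟨p, hp, -, -, -, hp2, hN, -⟩ := hL.exists_facet 0 1 (by decide) a d h1 h2 h3
  refine ⟨p, hp, hp2, ?_⟩
  have := octa (c := 1) hN (by simp only [Pi.sub_apply]; linarith)
  simp only [Pi.sub_apply] at this
  have e1 : (a 0 - a 1) - (p.1 0 - p.1 1) = a 0 - p.1 0 - (a 1 - p.1 1) := by ring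
  have e2 : (a 2 + a 3) - (p.1 2 + p.1 3) = a 2 - p.1 2 + (a 3 - p.1 3) := by ring
  have e3 : (a 2 - a 3) - (p.1 2 - p.1 3) = a 2 - p.1 2 - (a 3 - p.1 3) := by ring
  rw [e1, e2, e3]
  linarith

theorem lt_one_aux (x y z s : ℝ) (hs : 0 < s) (h1 : |x| + |y| + |z| ≤ 1)
    (h2 : |4 * s - x| + |4 * s - y| + |4 * s - z| ≤ 1 + s) : |x| < 1 := by
  by_contra hcon
  push Not at hcon
  have e1 : |x| - 4 * s ≤ |4 * s - x| := by
    have := abs_sub_abs_le_abs_sub x (4 * s)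
    rw [abs_of_pos (show 0 < 4 * s by linarith), abs_sub_comm] at this
    exact this
  have e2 : 4 * s - |y| ≤ |4 * s - y| := by
    have := abs_sub_abs_le_abs_sub (4 * s) y
    rwa [abs_of_pos (show 0 < 4 * s by linarith)] at this
  have e3 : 4 * s - |z| ≤ |4 * s - z| := by
    have := abs_sub_abs_le_abs_sub (4 * s) z
    rwa [abs_of_pos (show 0 < 4 * s by linarith)] at this
  linarith

include hL in
theorem exists_center : ∃ p ∈ L, p.1 0 + p.1 1 = 2 ∧
      |p.1 0 - p.1 1| + |p.1 2 + p.1 3| + |p.1 2 - p.1 3| ≤ 1 ∧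
      |p.1 0 - p.1 1| < 1 ∧ |p.1 2 + p.1 3| < 1 ∧ |p.1 2 - p.1 3| < 1 := by
  obtain ⟨p, hp, -, -, -, hp2, hN, hev⟩ := hL.exists_facet 0 1 (by decide)
    ![1 / 2, 1 / 2, 0, 0] ![5 / 2, -3 / 2, 4, 0]
    (by
      intro s hs hs1
      simp only [Matrix.cons_val_zero, Matrix.cons_val_one]
      refine ⟨?_, ?_, ?_, ?_, ?_⟩ <;> linarith)
    (by simp only [Matrix.cons_val_zero, Matrix.cons_val_one]; norm_num)
    (by
      intro s hs hs1 k l hkl h1 h2
      fin_cases k <;> fin_cases l <;> simp at hkl h1 h2 ⊢ <;>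
      first
        | (rw [abs_of_pos (by linarith), abs_of_pos (by linarith)]; linarith)
        | (rw [abs_of_pos (by linarith)]; linarith))
  obtain ⟨s, hs, hNs⟩ := (germ_pos.and hev).exists
  have h1 := octa (c := 1) hN (by
    simp only [Pi.sub_apply, Matrix.cons_val_zero, Matrix.cons_val_one]; linarith)
  have h2 := octa (c := 1 - s) hNs (by
    simp only [Matrix.cons_val_zero, Matrix.cons_val_one]; linarith)
  simp only [Pi.sub_apply, Matrix.cons_val_zero, Matrix.cons_val_one, Matrix.cons_val] at h1 h2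
  have e1 : (1 / 2 : ℝ) - p.1 0 - (1 / 2 - p.1 1) = -(p.1 0 - p.1 1) := by ring
  have e2 : (0 : ℝ) - p.1 2 + (0 - p.1 3) = -(p.1 2 + p.1 3) := by ring
  have e3 : (0 : ℝ) - p.1 2 - (0 - p.1 3) = -(p.1 2 - p.1 3) := by ring
  rw [e1, e2, e3, abs_neg, abs_neg, abs_neg] at h1
  have e4 : (1 / 2 : ℝ) + s * (5 / 2) - p.1 0 - (1 / 2 + s * (-3 / 2) - p.1 1) =
    4 * s - (p.1 0 - p.1 1) := by ring
  have e5 : (0 : ℝ) + s * 4 - p.1 2 + (0 + s * 0 - p.1 3) = 4 * s - (p.1 2 + p.1 3) := by ring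
  have e6 : (0 : ℝ) + s * 4 - p.1 2 - (0 + s * 0 - p.1 3) = 4 * s - (p.1 2 - p.1 3) := by ring
  rw [e4, e5, e6] at h2
  have h1' : |p.1 0 - p.1 1| + |p.1 2 + p.1 3| + |p.1 2 - p.1 3| ≤ 1 := by linarith
  have h2' : |4 * s - (p.1 0 - p.1 1)| + |4 * s - (p.1 2 + p.1 3)| + |4 * s - (p.1 2 - p.1 3)| ≤
    1 + s := by linarith
  exact ⟨p, hp, hp2, h1', lt_one_aux _ _ _ s hs h1' h2',
    lt_one_aux _ (p.1 0 - p.1 1) (p.1 2 - p.1 3) s hs (by linarith) (by linarith),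
    lt_one_aux _ (p.1 0 - p.1 1) (p.1 2 + p.1 3) s hs (by linarith) (by linarith)⟩

include hL in
theorem vertex00 : ∃ p ∈ L, p.1 0 + p.1 1 = 2 ∧ |1 - (p.1 0 - p.1 1)| + |p.1 2 + p.1 3| + |p.1 2 - p.1 3| ≤ 1 := by
  obtain ⟨q, hq, s, t⟩ := exists_vertex hL ![1, 0, 0, 0] ![-1, 2, 0, 0]
    (by
      intro s hs hs1
      simp only [Matrix.cons_val_zero, Matrix.cons_val_one]
      refine ⟨?_, ?_, ?_, ?_, ?_⟩ <;> linarith)
    (by simp only [Matrix.cons_val_zero, Matrix.cons_val_one]; norm_num)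
    (by
      intro s hs hs1 k l hkl h1 h2
      fin_cases k <;> fin_cases l <;> simp only [Fin.zero_eta, Fin.mk_one, Fin.reduceFinMk,
        Matrix.cons_val_zero, Matrix.cons_val_one, Matrix.cons_val, ne_eq, not_true_eq_false,
        and_self] at hkl h1 h2 ⊢
      all_goals (apply abs_add_abs_lt <;> linarith))
    1 0 0
    (by simp only [Matrix.cons_val]; norm_num) (by simp only [Matrix.cons_val]; norm_num)
    (by simp only [Matrix.cons_val]; norm_num)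
  exact ⟨q, hq, s, by simpa only [zero_sub, abs_neg] using t⟩

include hL in
theorem vertex01 : ∃ p ∈ L, p.1 0 + p.1 1 = 2 ∧ |-1 - (p.1 0 - p.1 1)| + |p.1 2 + p.1 3| + |p.1 2 - p.1 3| ≤ 1 := by
  obtain ⟨q, hq, s, t⟩ := exists_vertex hL ![0, 1, 0, 0] ![2, -1, 0, 0]
    (by
      intro s hs hs1
      simp only [Matrix.cons_val_zero, Matrix.cons_val_one]
      refine ⟨?_, ?_, ?_, ?_, ?_⟩ <;> linarith)
    (by simp only [Matrix.cons_val_zero, Matrix.cons_val_one]; norm_num)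
    (by
      intro s hs hs1 k l hkl h1 h2
      fin_cases k <;> fin_cases l <;> simp only [Fin.zero_eta, Fin.mk_one, Fin.reduceFinMk,
        Matrix.cons_val_zero, Matrix.cons_val_one, Matrix.cons_val, ne_eq, not_true_eq_false,
        and_self] at hkl h1 h2 ⊢
      all_goals (apply abs_add_abs_lt <;> linarith))
    (-1) 0 0
    (by simp only [Matrix.cons_val]; norm_num) (by simp only [Matrix.cons_val]; norm_num)
    (by simp only [Matrix.cons_val]; norm_num)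
  exact ⟨q, hq, s, by simpa only [zero_sub, abs_neg] using t⟩

include hL in
theorem vertex10 : ∃ p ∈ L, p.1 0 + p.1 1 = 2 ∧ |p.1 0 - p.1 1| + |1 - (p.1 2 + p.1 3)| + |p.1 2 - p.1 3| ≤ 1 := by
  obtain ⟨q, hq, s, t⟩ := exists_vertex hL ![1 / 2, 1 / 2, 1 / 2, 1 / 2] ![1 / 2, 1 / 2, -3 / 2, -3 / 2]
    (by
      intro s hs hs1
      simp only [Matrix.cons_val_zero, Matrix.cons_val_one]
      refine ⟨?_, ?_, ?_, ?_, ?_⟩ <;> linarith)
    (by simp only [Matrix.cons_val_zero, Matrix.cons_val_one]; norm_num)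
    (by
      intro s hs hs1 k l hkl h1 h2
      fin_cases k <;> fin_cases l <;> simp only [Fin.zero_eta, Fin.mk_one, Fin.reduceFinMk,
        Matrix.cons_val_zero, Matrix.cons_val_one, Matrix.cons_val, ne_eq, not_true_eq_false,
        and_self] at hkl h1 h2 ⊢
      all_goals (apply abs_add_abs_lt <;> linarith))
    0 1 0
    (by simp only [Matrix.cons_val]; norm_num) (by simp only [Matrix.cons_val]; norm_num)
    (by simp only [Matrix.cons_val]; norm_num)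
  exact ⟨q, hq, s, by simpa only [zero_sub, abs_neg] using t⟩

include hL in
theorem vertex11 : ∃ p ∈ L, p.1 0 + p.1 1 = 2 ∧ |p.1 0 - p.1 1| + |-1 - (p.1 2 + p.1 3)| + |p.1 2 - p.1 3| ≤ 1 := by
  obtain ⟨q, hq, s, t⟩ := exists_vertex hL ![1 / 2, 1 / 2, -1 / 2, -1 / 2] ![1 / 2, 1 / 2, 3 / 2, 3 / 2]
    (by
      intro s hs hs1
      simp only [Matrix.cons_val_zero, Matrix.cons_val_one]
      refine ⟨?_, ?_, ?_, ?_, ?_⟩ <;> linarith)
    (by simp only [Matrix.cons_val_zero, Matrix.cons_val_one]; norm_num)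
    (by
      intro s hs hs1 k l hkl h1 h2
      fin_cases k <;> fin_cases l <;> simp only [Fin.zero_eta, Fin.mk_one, Fin.reduceFinMk,
        Matrix.cons_val_zero, Matrix.cons_val_one, Matrix.cons_val, ne_eq, not_true_eq_false,
        and_self] at hkl h1 h2 ⊢
      all_goals (apply abs_add_abs_lt <;> linarith))
    0 (-1) 0
    (by simp only [Matrix.cons_val]; norm_num) (by simp only [Matrix.cons_val]; norm_num)
    (by simp only [Matrix.cons_val]; norm_num)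
  exact ⟨q, hq, s, by simpa only [zero_sub, abs_neg] using t⟩

include hL in
theorem vertex20 : ∃ p ∈ L, p.1 0 + p.1 1 = 2 ∧ |p.1 0 - p.1 1| + |p.1 2 + p.1 3| + |1 - (p.1 2 - p.1 3)| ≤ 1 := by
  obtain ⟨q, hq, s, t⟩ := exists_vertex hL ![1 / 2, 1 / 2, 1 / 2, -1 / 2] ![1 / 2, 1 / 2, -3 / 2, 3 / 2]
    (by
      intro s hs hs1
      simp only [Matrix.cons_val_zero, Matrix.cons_val_one]
      refine ⟨?_, ?_, ?_, ?_, ?_⟩ <;> linarith)
    (by simp only [Matrix.cons_val_zero, Matrix.cons_val_one]; norm_num)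
    (by
      intro s hs hs1 k l hkl h1 h2
      fin_cases k <;> fin_cases l <;> simp only [Fin.zero_eta, Fin.mk_one, Fin.reduceFinMk,
        Matrix.cons_val_zero, Matrix.cons_val_one, Matrix.cons_val, ne_eq, not_true_eq_false,
        and_self] at hkl h1 h2 ⊢
      all_goals (apply abs_add_abs_lt <;> linarith))
    0 0 1
    (by simp only [Matrix.cons_val]; norm_num) (by simp only [Matrix.cons_val]; norm_num)
    (by simp only [Matrix.cons_val]; norm_num)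
  exact ⟨q, hq, s, by simpa only [zero_sub, abs_neg] using t⟩

include hL in
theorem vertex21 : ∃ p ∈ L, p.1 0 + p.1 1 = 2 ∧ |p.1 0 - p.1 1| + |p.1 2 + p.1 3| + |-1 - (p.1 2 - p.1 3)| ≤ 1 := by
  obtain ⟨q, hq, s, t⟩ := exists_vertex hL ![1 / 2, 1 / 2, -1 / 2, 1 / 2] ![1 / 2, 1 / 2, 3 / 2, -3 / 2]
    (by
      intro s hs hs1
      simp only [Matrix.cons_val_zero, Matrix.cons_val_one]
      refine ⟨?_, ?_, ?_, ?_, ?_⟩ <;> linarith)
    (by simp only [Matrix.cons_val_zero, Matrix.cons_val_one]; norm_num)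
    (by
      intro s hs hs1 k l hkl h1 h2
      fin_cases k <;> fin_cases l <;> simp only [Fin.zero_eta, Fin.mk_one, Fin.reduceFinMk,
        Matrix.cons_val_zero, Matrix.cons_val_one, Matrix.cons_val, ne_eq, not_true_eq_false,
        and_self] at hkl h1 h2 ⊢
      all_goals (apply abs_add_abs_lt <;> linarith))
    0 0 (-1)
    (by simp only [Matrix.cons_val]; norm_num) (by simp only [Matrix.cons_val]; norm_num)
    (by simp only [Matrix.cons_val]; norm_num)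
  exact ⟨q, hq, s, by simpa only [zero_sub, abs_neg] using t⟩

include hL h02 in
/-- The root `e 0 + e 1`. -/
theorem root01 : ∃ σ : ℝ, ((![1, 1, 0, 0] : Fin 4 → ℝ), σ) ∈ L := by
  obtain ⟨p, hp, hp2, hp3, hpx, hpy, hpz⟩ := exists_center hL
  obtain ⟨q00, hq00, s00, t00⟩ := vertex00 hL
  obtain ⟨q01, hq01, s01, t01⟩ := vertex01 hL
  obtain ⟨q10, hq10, s10, t10⟩ := vertex10 hL
  obtain ⟨q11, hq11, s11, t11⟩ := vertex11 hL
  obtain ⟨q20, hq20, s20, t20⟩ := vertex20 hL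
  obtain ⟨q21, hq21, s21, t21⟩ := vertex21 hL
  let Q : Fin 3 → Fin 2 → (Fin 4 → ℝ) × ℝ := ![![q00, q01], ![q10, q11], ![q20, q21]]
  have hQ : ∀ k e, Q k e ∈ L := by
    intro k e
    fin_cases k <;> fin_cases e <;> assumption
  have hQ2 : ∀ k e, (Q k e).1 0 + (Q k e).1 1 = 2 := by
    intro k e
    fin_cases k <;> fin_cases e <;> assumption
  let u : Fin 3 → Fin 2 → Fin 3 → ℝ := fun k e =>
    ![(Q k e).1 0 - (Q k e).1 1, (Q k e).1 2 + (Q k e).1 3, (Q k e).1 2 - (Q k e).1 3]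
  obtain ⟨c1, c2, c3⟩ := core_all (p.1 0 - p.1 1) (p.1 2 + p.1 3) (p.1 2 - p.1 3) hp3 hpx hpy hpz u
    t00 t01 t10 t11 t20 t21
    (by
      intro k e
      have h1 := sep01 hL h02 (Q k e - p) (L.sub_mem (hQ k e) hp)
        (by simp only [Prod.fst_sub, Pi.sub_apply]; linarith [hQ2 k e])
      simp only [Prod.fst_sub, Pi.sub_apply] at h1
      rcases h1 with ⟨h1, h2, h3⟩ | h1
      · left
        refine ⟨?_, ?_, ?_⟩
        · show (Q k e).1 0 - (Q k e).1 1 = _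
          linarith
        · show (Q k e).1 2 + (Q k e).1 3 = _
          linarith
        · show (Q k e).1 2 - (Q k e).1 3 = _
          linarith
      · right
        show Sep ((Q k e).1 0 - (Q k e).1 1 - _) ((Q k e).1 2 + (Q k e).1 3 - _)
          ((Q k e).1 2 - (Q k e).1 3 - _)
        convert h1 using 1 <;> ring)
    (by
      intro k
      have h1 := sep01 hL h02 (p + p - Q k 0 - Q k 1)
        (L.sub_mem (L.sub_mem (L.add_mem hp hp) (hQ k 0)) (hQ k 1))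
        (by
          simp only [Prod.fst_sub, Prod.fst_add, Pi.sub_apply, Pi.add_apply]
          linarith [hQ2 k 0, hQ2 k 1])
      simp only [Prod.fst_sub, Prod.fst_add, Pi.sub_apply, Pi.add_apply] at h1
      rcases h1 with ⟨h1, h2, h3⟩ | h1
      · left
        refine ⟨?_, ?_, ?_⟩
        · show 2 * (p.1 0 - p.1 1) - ((Q k 0).1 0 - (Q k 0).1 1) - ((Q k 1).1 0 - (Q k 1).1 1) = 0
          linarith
        · show 2 * (p.1 2 + p.1 3) - ((Q k 0).1 2 + (Q k 0).1 3) - ((Q k 1).1 2 + (Q k 1).1 3) = 0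
          linarith
        · show 2 * (p.1 2 - p.1 3) - ((Q k 0).1 2 - (Q k 0).1 3) - ((Q k 1).1 2 - (Q k 1).1 3) = 0
          linarith
      · right
        show Sep (2 * (p.1 0 - p.1 1) - ((Q k 0).1 0 - (Q k 0).1 1) - ((Q k 1).1 0 - (Q k 1).1 1))
          (2 * (p.1 2 + p.1 3) - ((Q k 0).1 2 + (Q k 0).1 3) - ((Q k 1).1 2 + (Q k 1).1 3))
          (2 * (p.1 2 - p.1 3) - ((Q k 0).1 2 - (Q k 0).1 3) - ((Q k 1).1 2 - (Q k 1).1 3))
        convert h1 using 1 <;> ring)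
  refine ⟨p.2, ?_⟩
  have : (![1, 1, 0, 0] : Fin 4 → ℝ) = p.1 := by
    ext i
    fin_cases i
    · show (1 : ℝ) = p.1 0
      linarith
    · show (1 : ℝ) = p.1 1
      linarith
    · show (0 : ℝ) = p.1 2
      linarith
    · show (0 : ℝ) = p.1 3
      linarith
  rw [this]
  exact hp

end Tile

end Pool.Agent.Lib.P78373f
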