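import Pool.Agent.Lib.P78373f.Norm

/-!
# The upper bound
-/

namespace Pool.Agent.Lib.P78373f

open Filter Topology

/-- The real vector of an integer vector. -/
def re (m : Fin 4 → ℤ) : Fin 4 → ℝ := fun i => (m i : ℝ)

/-- Twice the height of the column over an integer point. -/
def ht (m : Fin 4 → ℤ) : ℤ := 2 * ((m 0 + m 1) % 2) + (m 0 + m 2) % 2

theorem ht_nonneg (m : Fin 4 → ℤ) : 0 ≤ ht m := by
  unfold ht
  omega

theorem ht_le (m : Fin 4 → ℤ) : ht m ≤ 3 := by
  unfold ht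
  omega

theorem even_add {m : Fin 4 → ℤ} (h : Even (∑ i, m i)) {i j : Fin 4} {s t : ℤ}
    (hs : s = 1 ∨ s = -1) (ht : t = 1 ∨ t = -1) :
    Even (∑ k, (m + Pi.single i s + Pi.single j t : Fin 4 → ℤ) k) := by
  simp only [Pi.add_apply, Finset.sum_add_distrib, Finset.sum_pi_single', Finset.mem_univ, if_true]
  rw [Int.even_iff] at *
  omega

theorem ht_ne {m : Fin 4 → ℤ} {i j : Fin 4} (hij : i ≠ j) {s t : ℤ}
    (hs : s = 1 ∨ s = -1) (ht' : t = 1 ∨ t = -1) :
    ht (m + Pi.single i s + Pi.single j t) ≠ ht m := by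
  unfold ht
  simp only [Pi.add_apply, Pi.single_apply]
  fin_cases i <;> fin_cases j <;> simp only [Fin.zero_eta, Fin.mk_one, Fin.reduceFinMk, ne_eq,
    not_true_eq_false] at hij ⊢ <;> simp <;> omega

theorem exists_shift {m : Fin 4 → ℤ} (h : Even (∑ i, m i)) {i j : Fin 4} (hij : i ≠ j) {s t : ℤ}
    (hs : s = 1 ∨ s = -1) (ht' : t = 1 ∨ t = -1) :
    ∃ m' : Fin 4 → ℤ, Even (∑ i, m' i) ∧ ht m' ≠ ht m ∧ m' i = m i + s ∧ m' j = m j + t ∧
      ∀ l, l ≠ i → l ≠ j → m' l = m l := by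
  refine ⟨m + Pi.single i s + Pi.single j t, even_add h hs ht', ht_ne hij hs ht', ?_, ?_, ?_⟩
  · simp only [Pi.add_apply, Pi.single_eq_same, Pi.single_eq_of_ne hij, add_zero]
  · simp only [Pi.add_apply, Pi.single_eq_same, Pi.single_eq_of_ne hij.symm, add_zero]
  · intro l h1 h2
    simp only [Pi.add_apply, Pi.single_eq_of_ne h1, Pi.single_eq_of_ne h2, add_zero]

theorem exists_round (x : Fin 4 → ℝ) : ∃ m : Fin 4 → ℤ, Even (∑ i, m i) ∧ NLe (x - re m) 1 := by
  have hr : ∀ i, |x i - round (x i)| ≤ 1 / 2 := fun i => abs_sub_round (x i)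
  by_cases h : Even (∑ i, round (x i))
  · refine ⟨fun i => round (x i), h, ?_⟩
    intro i j _
    have h1 := hr i
    have h2 := hr j
    show |x i - round (x i)| + |x j - round (x j)| ≤ 1
    linarith
  · obtain ⟨i, hi⟩ := Finite.exists_max (fun i => |x i - round (x i)|)
    obtain ⟨s, hs, hsi⟩ : ∃ s : ℤ, (s = 1 ∨ s = -1) ∧
        |x i - (round (x i) + s : ℤ)| ≤ 1 - |x i - round (x i)| := by
      have h1 := abs_le.1 (hr i)
      rcases le_total (0 : ℝ) (x i - round (x i)) with h2 | h2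
      · refine ⟨1, Or.inl rfl, ?_⟩
        rw [abs_of_nonneg h2, abs_le]
        push_cast
        constructor <;> linarith
      · refine ⟨-1, Or.inr rfl, ?_⟩
        rw [abs_of_nonpos h2, abs_le]
        push_cast
        constructor <;> linarith
    refine ⟨(fun i => round (x i)) + Pi.single i s, ?_, ?_⟩
    · simp only [Pi.add_apply, Finset.sum_add_distrib, Finset.sum_pi_single', Finset.mem_univ,
        if_true]
      rw [Int.even_iff] at *
      omega
    · have hk : ∀ k, k ≠ i → (x - re ((fun i => round (x i)) + Pi.single i s)) k =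
          x k - round (x k) := by
        intro k hk
        simp [re, hk]
      have hii : (x - re ((fun i => round (x i)) + Pi.single i s)) i =
          x i - (round (x i) + s : ℤ) := by
        simp [re]
      intro k l hkl
      by_cases h1 : k = i
      · have h2 : l ≠ i := fun h => hkl (h1.trans h.symm)
        rw [h1, hii, hk l h2]
        have := hi l
        linarith
      · by_cases h2 : l = i
        · rw [h2, hii, hk k h1]
          have := hi k
          linarith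
        · rw [hk k h1, hk l h2]
          have e1 := hr k
          have e2 := hr l
          linarith

theorem exists_height {h h' : ℤ} (h0 : 0 ≤ h) (h3 : h ≤ 3) (h0' : 0 ≤ h') (h3' : h' ≤ 3)
    (hne : h' ≠ h) (z : ℝ) (k : ℤ) (hz : |z - h / 2 - 2 * k| ≤ 1) :
    ∃ k' : ℤ, |z - h' / 2 - 2 * k'| ≤ 3 / 2 - |z - h / 2 - 2 * k| := by
  obtain ⟨c, d, hc1, hc3, hcd⟩ : ∃ c d : ℤ, 1 ≤ c ∧ c ≤ 3 ∧ h' = h + c + 4 * d := by
    rcases lt_or_gt_of_ne hne with h1 | h1
    · exact ⟨h' - h + 4, -1, by omega, by omega, by ring⟩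
    · exact ⟨h' - h, 0, by omega, by omega, by ring⟩
  have hc1' : (1 : ℝ) ≤ c := by exact_mod_cast hc1
  have hc3' : (c : ℝ) ≤ 3 := by exact_mod_cast hc3
  set ζ : ℝ := z - h / 2 - 2 * k with hζ
  rw [abs_le] at hz
  rcases le_total 0 ζ with h1 | h1
  · refine ⟨k - d, ?_⟩
    rw [abs_of_nonneg h1]
    have : z - (h' : ℝ) / 2 - 2 * ((k - d : ℤ) : ℝ) = ζ - c / 2 := by
      rw [hcd, hζ]
      push_cast
      ring
    rw [this, abs_le]
    constructor <;> linarith
  · refine ⟨k - d - 1, ?_⟩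
    rw [abs_of_nonpos h1]
    have : z - (h' : ℝ) / 2 - 2 * ((k - d - 1 : ℤ) : ℝ) = ζ + 2 - c / 2 := by
      rw [hcd, hζ]
      push_cast
      ring
    rw [this, abs_le]
    constructor <;> linarith

theorem abs_sub_sign {b : ℝ} {s : ℤ} (hs : s = 1 ∨ s = -1) (hb : (s : ℝ) * b = |b|)
    (h1 : |b| ≤ 1) : |b - s| = 1 - |b| := by
  rcases hs with rfl | rfl
  · push_cast at *
    rw [one_mul] at hb
    rw [← hb] at h1 ⊢
    rw [abs_of_nonpos (by linarith)]
    ring
  · push_cast at *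
    rw [← hb] at h1 ⊢
    rw [abs_of_nonneg (by linarith)]
    ring

/-- The non-lattice arrangement. -/
def arr : Set ((Fin 4 → ℝ) × ℝ) :=
  {v | ∃ (m : Fin 4 → ℤ) (k : ℤ), Even (∑ i, m i) ∧ v = (re m, (ht m : ℝ) / 2 + 2 * k)}

theorem arr_dense {ε : ℝ} (hε : 0 < ε) (a : (Fin 4 → ℝ) × ℝ) :
    ∃ p ∈ arr, BLe ε (a - p) (1 + ε / 2) := by
  obtain ⟨m, hm, hN⟩ := exists_round a.1
  set y : Fin 4 → ℝ := a.1 - re m with hy
  obtain ⟨k, hk⟩ : ∃ k : ℤ, |a.2 - (ht m : ℝ) / 2 - 2 * k| ≤ 1 := by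
    refine ⟨round ((a.2 - (ht m : ℝ) / 2) / 2), ?_⟩
    have := abs_sub_round ((a.2 - (ht m : ℝ) / 2) / 2)
    rw [abs_le] at this ⊢
    constructor <;> linarith [this.1, this.2]
  obtain ⟨⟨⟨i, j⟩, hij⟩, hmax⟩ := Finite.exists_max
    (fun p : {p : Fin 4 × Fin 4 // p.1 ≠ p.2} => |y p.1.1| + |y p.1.2|)
  have hij' : i ≠ j := hij
  have hmax' : ∀ k l, k ≠ l → |y k| + |y l| ≤ |y i| + |y j| := fun k l hkl => hmax ⟨(k, l), hkl⟩
  have hS := hN i j hij'
  by_cases hcase : |y i| + |y j| + 2 * ε * |a.2 - (ht m : ℝ) / 2 - 2 * k| ≤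
      (1 + ε) * (1 + ε / 2)
  · refine ⟨(re m, (ht m : ℝ) / 2 + 2 * k), ⟨m, k, hm, rfl⟩, ?_, ?_, ?_⟩
    · intro p q hpq
      have := hN p q hpq
      show |y p| + |y q| ≤ _
      linarith
    · show |a.2 - ((ht m : ℝ) / 2 + 2 * k)| ≤ _
      rw [← sub_sub]
      linarith
    · intro p q hpq
      show |y p| + |y q| + 2 * ε * |a.2 - ((ht m : ℝ) / 2 + 2 * k)| ≤ _
      rw [← sub_sub]
      linarith [hmax' p q hpq]
  · push Not at hcase
    have hsgn : ∀ b : ℝ, ∃ s : ℤ, (s = 1 ∨ s = -1) ∧ (s : ℝ) * b = |b| := by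
      intro b
      rcases le_total 0 b with h | h
      · exact ⟨1, Or.inl rfl, by rw [abs_of_nonneg h]; push_cast; ring⟩
      · exact ⟨-1, Or.inr rfl, by rw [abs_of_nonpos h]; push_cast; ring⟩
    obtain ⟨s, hs, hsy⟩ := hsgn (y i)
    obtain ⟨t, ht1, hty⟩ := hsgn (y j)
    obtain ⟨m', hme, hne, hmi, hmj, hml⟩ := exists_shift hm hij' hs ht1
    obtain ⟨k', hk'⟩ := exists_height (ht_nonneg m) (ht_le m) (ht_nonneg m') (ht_le m') hne a.2 k hk
    set Z : ℝ := |a.2 - (ht m : ℝ) / 2 - 2 * k| with hZ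
    have hyi : |(a.1 - re m') i| = 1 - |y i| := by
      have : (a.1 - re m') i = y i - s := by
        rw [hy, Pi.sub_apply, Pi.sub_apply, re, re, hmi]
        push_cast
        ring
      rw [this, abs_sub_sign hs hsy]
      linarith [abs_nonneg (y j)]
    have hyj : |(a.1 - re m') j| = 1 - |y j| := by
      have : (a.1 - re m') j = y j - t := by
        rw [hy, Pi.sub_apply, Pi.sub_apply, re, re, hmj]
        push_cast
        ring
      rw [this, abs_sub_sign ht1 hty]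
      linarith [abs_nonneg (y i)]
    have hyk : ∀ l, l ≠ i → l ≠ j → |(a.1 - re m') l| = |y l| := by
      intro l h1 h2
      rw [hy, Pi.sub_apply, Pi.sub_apply, re, re, hml l h1 h2]
    have hM : ∀ p q, p ≠ q → |(a.1 - re m') p| + |(a.1 - re m') q| ≤
        2 - (|y i| + |y j|) := by
      intro p q hpq
      by_cases hp1 : p = i
      · rw [hp1, hyi]
        by_cases hq1 : q = j
        · rw [hq1, hyj]
          linarith
        · have hq2 : q ≠ i := fun h => hpq (hp1.trans h.symm)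
          rw [hyk q hq2 hq1]
          linarith [hmax' q j hq1]
      · by_cases hp2 : p = j
        · rw [hp2, hyj]
          by_cases hq1 : q = i
          · rw [hq1, hyi]
            linarith
          · have hq2 : q ≠ j := fun h => hpq (hp2.trans h.symm)
            rw [hyk q hq1 hq2]
            linarith [hmax' q i hq1]
        · rw [hyk p hp1 hp2]
          by_cases hq1 : q = i
          · rw [hq1, hyi]
            linarith [hmax' p j hp2]
          · by_cases hq2 : q = j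
            · rw [hq2, hyj]
              linarith [hmax' p i hp1]
            · rw [hyk q hq1 hq2]
              linarith [hN p q hpq]
    have hZ1 : ε * Z ≤ ε * 1 := mul_le_mul_of_nonneg_left hk hε.le
    have hZ2 : 3 / 4 < Z := by
      by_contra hcon
      push Not at hcon
      have := mul_le_mul_of_nonneg_left hcon hε.le
      nlinarith
    have hk'' : ε * |a.2 - (ht m' : ℝ) / 2 - 2 * k'| ≤ ε * (3 / 2 - Z) :=
      mul_le_mul_of_nonneg_left hk' hε.le
    refine ⟨(re m', (ht m' : ℝ) / 2 + 2 * k'), ⟨m', k', hme, rfl⟩, ?_, ?_, ?_⟩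
    · intro p q hpq
      have := hM p q hpq
      show |(a.1 - re m') p| + |(a.1 - re m') q| ≤ _
      nlinarith
    · show |a.2 - ((ht m' : ℝ) / 2 + 2 * k')| ≤ _
      rw [← sub_sub]
      linarith
    · intro p q hpq
      show |(a.1 - re m') p| + |(a.1 - re m') q| +
        2 * ε * |a.2 - ((ht m' : ℝ) / 2 + 2 * k')| ≤ _
      rw [← sub_sub]
      have := hM p q hpq
      nlinarith

/-- A nonzero vector of `D₄` has norm at least two. -/
theorem exists_two_le {d : Fin 4 → ℤ} (hd : d ≠ 0) (he : Even (∑ i, d i)) :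
    ∃ i j, i ≠ j ∧ (2 : ℝ) ≤ |(d i : ℝ)| + |(d j : ℝ)| := by
  by_contra hcon
  push Not at hcon
  have h1 : ∀ i j, i ≠ j → |d i| + |d j| ≤ 1 := by
    intro i j hij
    have := hcon i j hij
    have h2 : |d i| + |d j| < 2 := by exact_mod_cast this
    omega
  have h2 : ∀ i j, i ≠ j → (d i = 0 ∨ d j = 0) ∧ -1 ≤ d i ∧ d i ≤ 1 := by
    intro i j hij
    have := h1 i j hij
    have e1 := le_abs_self (d i)
    have e2 := neg_le_abs (d i)
    have e3 := abs_nonneg (d j)
    refine ⟨?_, by linarith, by linarith⟩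
    by_contra hc
    push Not at hc
    have e4 := Int.one_le_abs hc.1
    have e5 := Int.one_le_abs hc.2
    omega
  have a01 := h2 0 1 (by decide)
  have a02 := h2 0 2 (by decide)
  have a03 := h2 0 3 (by decide)
  have a12 := h2 1 2 (by decide)
  have a13 := h2 1 3 (by decide)
  have a23 := h2 2 3 (by decide)
  have a32 := h2 3 2 (by decide)
  rw [Fin.sum_univ_four, Int.even_iff] at he
  apply hd
  ext i
  fin_cases i <;> simp <;> omega

theorem even_sub {m m' : Fin 4 → ℤ} (h : Even (∑ i, m i)) (h' : Even (∑ i, m' i)) :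
    Even (∑ i, (m - m') i) := by
  simp only [Pi.sub_apply, Finset.sum_sub_distrib]
  exact h.sub h'

theorem arr_sep {ε : ℝ} {v w : (Fin 4 → ℝ) × ℝ} (hv : v ∈ arr) (hw : w ∈ arr) (hvw : v ≠ w)
    {r : ℝ} (hr : BLe ε (v - w) r) : 2 ≤ r := by
  obtain ⟨m, k, hm, rfl⟩ := hv
  obtain ⟨m', k', hm', rfl⟩ := hw
  by_cases h : m = m'
  · subst h
    have hkk : k ≠ k' := by
      rintro rfl
      exact hvw rfl
    have h1 := hr.z
    have h2 : ((re m, (ht m : ℝ) / 2 + 2 * (k : ℝ)) - (re m, (ht m : ℝ) / 2 + 2 * (k' : ℝ))).2 =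
        2 * ((k - k' : ℤ) : ℝ) := by
      rw [Prod.snd_sub]
      push_cast
      ring
    rw [h2, abs_mul, abs_of_pos (show (0 : ℝ) < 2 by norm_num)] at h1
    have h3 : (1 : ℝ) ≤ |((k - k' : ℤ) : ℝ)| := by
      have := Int.one_le_abs (sub_ne_zero.2 hkk)
      exact_mod_cast this
    linarith
  · obtain ⟨i, j, hij, h1⟩ := exists_two_le (sub_ne_zero.2 h) (even_sub hm hm')
    have h2 := hr.N i j hij
    have h3 : ∀ l, ((re m, (ht m : ℝ) / 2 + 2 * (k : ℝ)) -
        (re m', (ht m' : ℝ) / 2 + 2 * (k' : ℝ))).1 l = (((m - m') l : ℤ) : ℝ) := by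
      intro l
      simp [re]
    rw [h3, h3] at h2
    linarith

/-- The lattice `D₄ × 2ℤ`. -/
def dlat : AddSubgroup ((Fin 4 → ℝ) × ℝ) where
  carrier := {v | ∃ (m : Fin 4 → ℤ) (k : ℤ), Even (∑ i, m i) ∧ v = (re m, 2 * (k : ℝ))}
  zero_mem' := ⟨0, 0, by simp, by
    ext i
    · simp [re]
    · simp⟩
  add_mem' := by
    rintro _ _ ⟨m, k, hm, rfl⟩ ⟨m', k', hm', rfl⟩
    refine ⟨m + m', k + k', ?_, ?_⟩
    · simp only [Pi.add_apply, Finset.sum_add_distrib]
      exact hm.add hm'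
    · ext i
      · simp [re]
      · simp
        ring
  neg_mem' := by
    rintro _ ⟨m, k, hm, rfl⟩
    refine ⟨-m, -k, ?_, ?_⟩
    · simp only [Pi.neg_apply, Finset.sum_neg_distrib]
      exact hm.neg
    · ext i
      · simp [re]
      · simp

theorem dlat_dense {ε : ℝ} (hε : 0 < ε) (a : (Fin 4 → ℝ) × ℝ) :
    ∃ p ∈ dlat, BLe ε (a - p) 2 := by
  obtain ⟨m, hm, hN⟩ := exists_round a.1
  have hk : |a.2 - 2 * (round (a.2 / 2) : ℝ)| ≤ 1 := by
    have := abs_sub_round (a.2 / 2)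
    rw [abs_le] at this ⊢
    constructor <;> linarith [this.1, this.2]
  refine ⟨(re m, 2 * (round (a.2 / 2) : ℝ)), ⟨m, _, hm, rfl⟩, ?_, ?_, ?_⟩
  · intro p q hpq
    have := hN p q hpq
    show |(a.1 - re m) p| + |(a.1 - re m) q| ≤ _
    linarith
  · show |a.2 - 2 * (round (a.2 / 2) : ℝ)| ≤ _
    linarith
  · intro p q hpq
    show |(a.1 - re m) p| + |(a.1 - re m) q| + 2 * ε * |a.2 - 2 * (round (a.2 / 2) : ℝ)| ≤ _
    have h1 := hN p q hpq
    have h2 := mul_le_mul_of_nonneg_left hk hε.le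
    linarith

theorem dlat_sep {ε : ℝ} {v w : (Fin 4 → ℝ) × ℝ} (hv : v ∈ dlat) (hw : w ∈ dlat) (hvw : v ≠ w)
    {r : ℝ} (hr : BLe ε (v - w) r) : 2 ≤ r := by
  obtain ⟨m, k, hm, rfl⟩ := hv
  obtain ⟨m', k', hm', rfl⟩ := hw
  by_cases h : m = m'
  · subst h
    have hkk : k ≠ k' := by
      rintro rfl
      exact hvw rfl
    have h1 := hr.z
    have h2 : ((re m, 2 * (k : ℝ)) - (re m, 2 * (k' : ℝ))).2 = 2 * ((k - k' : ℤ) : ℝ) := by
      rw [Prod.snd_sub]
      push_cast
      ring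
    rw [h2, abs_mul, abs_of_pos (show (0 : ℝ) < 2 by norm_num)] at h1
    have h3 : (1 : ℝ) ≤ |((k - k' : ℤ) : ℝ)| := by
      have := Int.one_le_abs (sub_ne_zero.2 hkk)
      exact_mod_cast this
    linarith
  · obtain ⟨i, j, hij, h1⟩ := exists_two_le (sub_ne_zero.2 h) (even_sub hm hm')
    have h2 := hr.N i j hij
    have h3 : ∀ l, ((re m, 2 * (k : ℝ)) - (re m', 2 * (k' : ℝ))).1 l =
        (((m - m') l : ℤ) : ℝ) := by
      intro l
      simp [re]
    rw [h3, h3] at h2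
    linarith

end Pool.Agent.Lib.P78373f
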