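import Pool.Agent.Lib.P78373f.Key

/-!
# Layer tilings, and the key lemma
-/

namespace Pool.Agent.Lib.P78373f

open Filter Topology

namespace Tile

variable {L : AddSubgroup ((Fin 4 → ℝ) × ℝ)} (hL : Tile L)

include hL

omit hL in
/-- The point used as a facet point. -/
noncomputable def fpt : Fin 4 → ℝ := ![1 / 10, 1 / 10, 2 / 5, 3 / 5]

omit hL in
theorem fpt0 : fpt 0 = 1 / 10 := rfl
omit hL in
theorem fpt1 : fpt 1 = 1 / 10 := rfl
omit hL in
theorem fpt2 : fpt 2 = 2 / 5 := rfl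
omit hL in
theorem fpt3 : fpt 3 = 3 / 5 := rfl

theorem fpt_facet : ∃ p ∈ L, |p.2| ≤ 1 ∧ 0 ≤ p.1 2 ∧ 0 ≤ p.1 3 ∧ p.1 2 + p.1 3 = 2 ∧
    NLe (fpt - p.1) 1 := by
  obtain ⟨p, hp, hp2, hpi, hpj, hsum, hN, -⟩ := hL.exists_facet 2 3 (by decide)
    fpt ![0, 0, 1, 1]
    (by
      intro s hs hs1
      rw [fpt2, fpt3]
      simp only [Matrix.cons_val]
      refine ⟨?_, ?_, ?_, ?_, ?_⟩ <;> linarith)
    (by rw [fpt2, fpt3]; norm_num)
    (by
      intro s hs hs1 k l hkl h1 h2
      fin_cases k <;> fin_cases l <;> simp only [Fin.zero_eta, Fin.mk_one, Fin.reduceFinMk,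
        Matrix.cons_val_zero, Matrix.cons_val_one, Matrix.cons_val, ne_eq, not_true_eq_false,
        and_self, fpt0, fpt1, fpt2, fpt3] at hkl h1 h2 ⊢
      all_goals (apply abs_add_abs_lt <;> linarith))
  exact ⟨p, hp, hp2, hpi, hpj, hsum, hN⟩

omit hL in
/-- A neighbour of the facet point is good. -/
theorem fpt_good (p : Fin 4 → ℝ) (hpi : 0 ≤ p 2) (hpj : 0 ≤ p 3) (hsum : p 2 + p 3 = 2)
    (hN : NLe (fpt - p) 1) : Good p := by
  have n01 := hN 0 1 (by decide)
  have n02 := hN 0 2 (by decide)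
  have n03 := hN 0 3 (by decide)
  have n12 := hN 1 2 (by decide)
  have n13 := hN 1 3 (by decide)
  have n23 := hN 2 3 (by decide)
  simp only [Pi.sub_apply, fpt0, fpt1, fpt2, fpt3] at n01 n02 n03 n12 n13 n23
  have b2 := le_abs_self (2 / 5 - p 2)
  have b2' := neg_le_abs (2 / 5 - p 2)
  have b3 := le_abs_self (3 / 5 - p 3)
  have b3' := neg_le_abs (3 / 5 - p 3)
  have a0 : |p 0| ≤ 1 / 10 + |1 / 10 - p 0| := by
    have := abs_sub (1 / 10) (1 / 10 - p 0)
    rw [abs_of_pos (by norm_num : (0 : ℝ) < 1 / 10)] at this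
    simpa using this
  have a1 : |p 1| ≤ 1 / 10 + |1 / 10 - p 1| := by
    have := abs_sub (1 / 10) (1 / 10 - p 1)
    rw [abs_of_pos (by norm_num : (0 : ℝ) < 1 / 10)] at this
    simpa using this
  have a2 := abs_of_nonneg hpi
  have a3 := abs_of_nonneg hpj
  refine ⟨2, 3, by decide, ?_, ?_, ?_, ?_⟩
  · intro h
    linarith
  · intro h
    linarith
  · rw [a2, a3]
    exact hsum
  · intro k l hkl c1 c2
    fin_cases k <;> fin_cases l <;> simp only [Fin.zero_eta, Fin.mk_one, Fin.reduceFinMk,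
      ne_eq, not_true_eq_false, and_self] at hkl c1 c2 ⊢ <;> linarith

omit hL in
theorem fpt_sub (y : Fin 4 → ℝ) (h0 : 0 ≤ y 0) (h01 : y 0 ≤ y 1) (h12 : y 1 ≤ y 2)
    (h23 : y 2 ≤ y 3) (hy : y 2 + y 3 ≤ 1) (hpos : 0 < y 3) : NLt (fpt - y) 1 := by
  intro k l hkl
  simp only [Pi.sub_apply]
  fin_cases k <;> fin_cases l <;> simp only [Fin.zero_eta, Fin.mk_one, Fin.reduceFinMk,
      ne_eq, not_true_eq_false, fpt0, fpt1, fpt2, fpt3] at hkl ⊢
  all_goals (apply abs_add_abs_lt <;> linarith)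

/-- No neighbour has a midpoint in the interior of the cell, unless its height is an integer. -/
theorem gap (q : (Fin 4 → ℝ) × ℝ) (hq : q ∈ L) (hN' : NLt q.1 2) (h1 : -3 ≤ q.2)
    (h2 : q.2 ≤ -2) : q.2 = -2 := by
  set x : Fin 4 → ℝ := (1 / 2 : ℝ) • q.1 with hx
  have hx1 : NLt x 1 := by
    intro k l hkl
    have := hN' k l hkl
    rw [hx, Pi.smul_apply, Pi.smul_apply, smul_eq_mul, smul_eq_mul, abs_mul, abs_mul,
      abs_of_pos (show (0 : ℝ) < 1 / 2 by norm_num)]
    linarith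
  obtain ⟨r, hr, hcov⟩ := hL.exists_cover germ (fun s => (x, -1 - s)) 2 (by
    filter_upwards [germ_pos, germ_lt (show (0 : ℝ) < 1 by norm_num)] with s hs hs1
    constructor
    · intro k
      have := hx1.le.abs_le k
      show |x k| ≤ 2
      linarith
    · show |(-1 - s : ℝ)| ≤ 2
      rw [abs_le]
      constructor <;> linarith)
  obtain ⟨s, hs, hs1⟩ := (germ_pos.and hcov).exists
  have hr2 : r.2 ≤ -s := by
    have := neg_le_of_abs_le hs1.2
    linarith
  have e3 : r.1 = x + -(x - r.1) := by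
    ext k
    simp
  have hrN : NLt r.1 2 := by
    rw [e3]
    have := hx1.add_le hs1.1.neg
    norm_num at this ⊢
    exact this
  have hr3 : r.2 ≤ -2 := by
    by_contra hcon
    push Not at hcon
    have h1 := hL.sep r hr hrN (by rw [abs_lt]; constructor <;> linarith)
    rw [h1] at hr2
    have : (0 : ℝ) ≤ -s := hr2
    linarith
  have hr4 : -2 ≤ r.2 := by
    refine le_of_germ (K := 1) ?_
    filter_upwards [hcov] with t ht
    have := le_of_abs_le ht.2
    linarith
  have hrz : r.2 = -2 := le_antisymm hr3 hr4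
  have e4 : (r - q).1 = -x + -(x - r.1) := by
    have : q.1 = (2 : ℝ) • x := by
      rw [hx, smul_smul]
      norm_num
    rw [Prod.fst_sub, this]
    ext k
    simp only [Pi.add_apply, Pi.neg_apply, Pi.sub_apply, Pi.smul_apply, smul_eq_mul]
    ring
  have e5 : (r - q).2 = -2 - q.2 := by
    rw [Prod.snd_sub, hrz]
  have hfin := hL.sep _ (L.sub_mem hr hq) (by
    rw [e4]
    have := hx1.neg.add_le hs1.1.neg
    norm_num at this ⊢
    exact this) (by
    rw [e5, abs_lt]
    constructor <;> linarith)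
  have hp0 : -2 - q.2 = 0 := by
    rw [← e5, hfin]
    rfl
  linarith

/-- If all good vectors have heights larger than `2 / 5`, then the cell below the cell of zero is
not shifted. -/
theorem shift_sorted (H : ∀ p ∈ L, Good p.1 → |p.2| ≤ 1 → 2 / 5 < |p.2|)
    (y : Fin 4 → ℝ) (hq : (-y, (-2 : ℝ)) ∈ L) (h0 : 0 ≤ y 0) (h01 : y 0 ≤ y 1) (h12 : y 1 ≤ y 2)
    (h23 : y 2 ≤ y 3) (hy : y 2 + y 3 ≤ 1) : y 3 = 0 := by
  by_contra hne
  have hpos : 0 < y 3 := lt_of_le_of_ne (by linarith) (Ne.symm hne)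
  obtain ⟨p, hp, hp2, hpi, hpj, hsum, hN⟩ := hL.fpt_facet
  have hgood : Good p.1 := fpt_good p.1 hpi hpj hsum hN
  have hH := H p hp hgood hp2
  -- the neighbour `p'`
  have hfy : NLt (fpt - y) 1 := fpt_sub y h0 h01 h12 h23 hy hpos
  have hp' : (-y, (-2 : ℝ)) + p ∈ L := L.add_mem hq hp
  have e1 : ((-y, (-2 : ℝ)) + p).1 = (fpt - y) + -(fpt - p.1) := by
    ext k
    simp only [Prod.fst_add, Pi.add_apply, Pi.neg_apply, Pi.sub_apply]
    ring
  have e2 : ((-y, (-2 : ℝ)) + p).2 = -2 + p.2 := rfl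
  have hN' : NLt ((-y, (-2 : ℝ)) + p).1 2 := by
    rw [e1]
    have := hfy.add_le hN.neg
    norm_num at this ⊢
    exact this
  obtain ⟨hp2l, hp2u⟩ := abs_le.1 hp2
  have hpneg : p.2 ≤ 0 := by
    by_contra hcon
    push Not at hcon
    have h1 := hL.sep _ hp' hN' (by rw [e2, abs_lt]; constructor <;> linarith)
    have h2 : ((-y, (-2 : ℝ)) + p).2 = 0 := by rw [h1]; rfl
    rw [e2] at h2
    linarith
  have hg := hL.gap _ hp' hN' (by rw [e2]; linarith) (by rw [e2]; linarith)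
  rw [e2] at hg
  have hp0 : p.2 = 0 := by linarith
  rw [hp0, abs_zero] at hH
  linarith

/-- If all good vectors have heights larger than `2 / 5`, the tiling is a column tiling. -/
theorem column (H : ∀ p ∈ L, Good p.1 → |p.2| ≤ 1 → 2 / 5 < |p.2|) :
    ((0 : Fin 4 → ℝ), (2 : ℝ)) ∈ L := by
  obtain ⟨q, hq, hcov⟩ := hL.exists_cover germ (fun s => ((0 : Fin 4 → ℝ), 1 + s)) 2 (by
    filter_upwards [germ_pos, germ_lt (show (0 : ℝ) < 1 by norm_num)] with s hs hs1
    constructor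
    · intro k
      show |(0 : ℝ)| ≤ 2
      norm_num
    · show |(1 + s : ℝ)| ≤ 2
      rw [abs_le]
      constructor <;> linarith)
  obtain ⟨s, hs, hs1⟩ := (germ_pos.and hcov).exists
  have hqN : NLe q.1 1 := by
    have := hs1.1.neg
    simpa using this
  have hqN2 : NLt q.1 2 := fun i j hij => by
    have := hqN i j hij
    linarith
  have hq1 : s ≤ q.2 := by
    have := le_of_abs_le hs1.2
    linarith
  have hq2 : 2 ≤ q.2 := by
    by_contra hcon
    push Not at hcon
    have h1 := hL.sep q hq hqN2 (by rw [abs_lt]; constructor <;> linarith)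
    rw [h1] at hq1
    have : s ≤ 0 := hq1
    linarith
  have hq3 : q.2 ≤ 2 := by
    refine le_of_germ (K := 1) ?_
    filter_upwards [hcov] with t ht
    have := neg_le_of_abs_le ht.2
    linarith
  have hqz : q.2 = 2 := le_antisymm hq3 hq2
  -- sort the coordinates
  let τ : Equiv.Perm (Fin 4) := Tuple.sort (fun i => |q.1 i|)
  have hτ : Monotone ((fun i => |q.1 i|) ∘ τ) := Tuple.monotone_sort _
  let e : Fin 4 → ℝ := fun i => if 0 ≤ q.1 i then 1 else -1
  have he : ∀ i, e i = 1 ∨ e i = -1 := by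
    intro i
    simp only [e]
    split_ifs <;> simp
  have hee : ∀ i, e i * |q.1 i| = q.1 i := by
    intro i
    simp only [e]
    split_ifs with h
    · rw [abs_of_nonneg h, one_mul]
    · push Not at h
      rw [abs_of_neg h]
      ring
  let y : Fin 4 → ℝ := fun k => |q.1 (τ k)|
  have h1 : act τ.symm e (-y) = -q.1 := by
    ext i
    simp only [act, Pi.neg_apply, y, Equiv.apply_symm_apply, mul_neg, hee]
  have h2 : (-y, (-2 : ℝ)) ∈ L.comap (actHom τ.symm e) := by
    show (act τ.symm e (-y), (-2 : ℝ)) ∈ L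
    rw [h1]
    have := L.neg_mem hq
    have h3 : -q = (-q.1, (-2 : ℝ)) := by
      ext k
      · simp
      · simp [hqz]
    rwa [h3] at this
  have h3 := (hL.comap_act τ.symm e he).shift_sorted
    (fun p hp hg hp1 => H (act τ.symm e p.1, p.2) hp (hg.act _ _ he) hp1) y h2
    (abs_nonneg _) (hτ (by decide)) (hτ (by decide)) (hτ (by decide))
    (hqN (τ 2) (τ 3) (fun h => absurd (τ.injective h) (by decide)))
  have h4 : q.1 = 0 := by
    ext i
    have h5 : |q.1 i| ≤ y 3 := by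
      have h6 := hτ (Fin.le_last (τ.symm i))
      simp only [Function.comp_apply, Equiv.apply_symm_apply] at h6
      exact h6
    rw [h3] at h5
    simpa using h5
  have h5 : q = (0, 2) := by
    ext i
    · rw [h4]
    · exact hqz
  rwa [h5] at hq

/-- The key lemma. -/
theorem exists_good : ∃ p ∈ L, Good p.1 ∧ |p.2| ≤ 2 / 5 := by
  by_cases H : ∀ p ∈ L, Good p.1 → |p.2| ≤ 1 → 2 / 5 < |p.2|
  · obtain ⟨p, hp, hg, h⟩ := hL.exists_good_of_column (hL.column H)
    exact ⟨p, hp, hg, by linarith⟩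
  · push Not at H
    obtain ⟨p, hp, hg, -, h⟩ := H
    exact ⟨p, hp, hg, h⟩

end Tile

end Pool.Agent.Lib.P78373f
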